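import Mathlib

set_option autoImplicit false
set_option linter.unusedVariables false
set_option linter.unusedSectionVars false

/-!
# The universal homogeneous poset: extension properties
-/

namespace Pool.Agent.MP984e59

/-- The two defining properties of the universal homogeneous poset. -/
structure UH (Ω : Type) [PartialOrder Ω] : Prop where
  univ : ∀ (α : Type) [Finite α] [PartialOrder α], Nonempty (α ↪o Ω)
  homog : ∀ (A B : Set Ω), A.Finite → ∀ f : A ≃o B, ∃ g : Ω ≃o Ω, ∀ a : A, g a.1 = (f a).1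

variable {Ω : Type} [PartialOrder Ω]

theorem UH.homog_emb (h : UH Ω) {ι : Type} [Finite ι] [PartialOrder ι] (j j' : ι ↪o Ω) :
    ∃ g : Ω ≃o Ω, ∀ i, g (j i) = j' i := by
  obtain ⟨g, hg⟩ := h.homog (Set.range j) (Set.range j') (Set.finite_range j)
    (j.orderIso.symm.trans j'.orderIso)
  refine ⟨g, fun i => ?_⟩
  have := hg ⟨j i, ⟨i, rfl⟩⟩
  rw [this]
  have h2 : (⟨j i, ⟨i, rfl⟩⟩ : Set.range j) = j.orderIso i := rfl
  rw [h2, OrderIso.trans_apply, OrderIso.symm_apply_apply]
  rfl

theorem UH.homog_fin (h : UH Ω) (S : Finset Ω) (φ : Ω → Ω)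
    (hφ : ∀ x ∈ S, ∀ y ∈ S, φ x ≤ φ y ↔ x ≤ y) : ∃ g : Ω ≃o Ω, ∀ x ∈ S, g x = φ x := by
  let j : S ↪o Ω := ⟨⟨fun x => x.1, Subtype.val_injective⟩, Iff.rfl⟩
  let j' : S ↪o Ω := ⟨⟨fun x => φ x.1, by
    intro x y hxy
    apply Subtype.ext
    apply le_antisymm
    · rw [← hφ x.1 x.2 y.1 y.2]; exact le_of_eq hxy
    · rw [← hφ y.1 y.2 x.1 x.2]; exact le_of_eq hxy.symm⟩, by
    intro x y
    exact hφ x.1 x.2 y.1 y.2⟩
  obtain ⟨g, hg⟩ := h.homog_emb j j'
  exact ⟨g, fun x hx => hg ⟨x, hx⟩⟩

/-- The one-point extension property. -/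
theorem UH.ext1 (h : UH Ω) (S L U : Finset Ω) (hL : L ⊆ S) (hU : U ⊆ S)
    (hLU : ∀ l ∈ L, ∀ u ∈ U, l < u) (hLd : ∀ x ∈ S, ∀ l ∈ L, x ≤ l → x ∈ L)
    (hUd : ∀ x ∈ S, ∀ u ∈ U, u ≤ x → x ∈ U) :
    ∃ z, z ∉ S ∧ ∀ x ∈ S, (x < z ↔ x ∈ L) ∧ (z < x ↔ x ∈ U) := by
  classical
  let le' : Option S → Option S → Prop := fun a b =>
    match a, b with
    | none, none => True
    | none, some y => y.1 ∈ U
    | some x, none => x.1 ∈ L
    | some x, some y => x.1 ≤ y.1
  let P : PartialOrder (Option S) :=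
    { le := le'
      lt := fun a b => le' a b ∧ ¬ le' b a
      le_refl := by
        intro a
        rcases a with _ | x
        · trivial
        · exact le_refl x.1
      le_trans := by
        intro a b c hab hbc
        rcases a with _ | x <;> rcases b with _ | y <;> rcases c with _ | z
        · trivial
        · exact hbc
        · trivial
        · exact hUd z.1 z.2 y.1 hab hbc
        · exact hab
        · exact (hLU x.1 hab z.1 hbc).le
        · exact hLd x.1 x.2 y.1 hbc hab
        · exact le_trans (a := x.1) hab hbc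
      le_antisymm := by
        intro a b hab hba
        rcases a with _ | x <;> rcases b with _ | y
        · rfl
        · exact absurd (hLU y.1 hba y.1 hab) (lt_irrefl _)
        · exact absurd (hLU x.1 hab x.1 hba) (lt_irrefl _)
        · exact congrArg some (Subtype.ext (le_antisymm (a := x.1) hab hba))
      lt_iff_le_not_ge := fun a b => Iff.rfl }
  obtain ⟨j⟩ := h.univ (Option S)
  let j1 : S ↪o Ω := ⟨⟨fun x => j (some x), by
    intro x y hxy
    have := j.injective hxy
    exact Option.some.inj this⟩, by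
    intro x y
    exact j.le_iff_le (a := some x) (b := some y)⟩
  let j2 : S ↪o Ω := ⟨⟨fun x => x.1, Subtype.val_injective⟩, Iff.rfl⟩
  obtain ⟨g, hg⟩ := h.homog_emb j1 j2
  have hg' : ∀ x : S, g (j (some x)) = x.1 := fun x => hg x
  refine ⟨g (j none), ?_, ?_⟩
  · intro hz
    have h1 : g (j (some ⟨_, hz⟩)) = g (j none) := hg' _
    have h2 := j.injective (g.injective h1)
    cases h2
  · intro x hx
    have h1 : g (j (some ⟨x, hx⟩)) = x := hg' ⟨x, hx⟩
    have hne : x ≠ g (j none) := by
      intro he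
      have h2 : g (j (some ⟨x, hx⟩)) = g (j none) := h1.trans he
      have h3 := j.injective (g.injective h2)
      cases h3
    constructor
    · rw [lt_iff_le_and_ne, and_iff_left hne]
      have h3 : g (j (some ⟨x, hx⟩)) ≤ g (j none) ↔ x ∈ L := by
        rw [g.le_iff_le, j.le_iff_le]
        exact Iff.rfl
      rwa [h1] at h3
    · rw [lt_iff_le_and_ne, and_iff_left hne.symm]
      have h3 : g (j none) ≤ g (j (some ⟨x, hx⟩)) ↔ x ∈ U := by
        rw [g.le_iff_le, j.le_iff_le]
        exact Iff.rfl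
      rwa [h1] at h3

variable [DecidableEq Ω]

/-- `g E` is in free position over `D` relative to `B`. -/
structure FreePos (D B E : Finset Ω) (g : Ω ≃o Ω) : Prop where
  fix : ∀ x ∈ D, g x = x
  disj : ∀ x ∈ E, g x ∈ B → x ∈ D
  le : ∀ x ∈ B, ∀ y ∈ E, x ≤ g y → ∃ z ∈ D, x ≤ z ∧ z ≤ g y
  ge : ∀ x ∈ B, ∀ y ∈ E, g y ≤ x → ∃ z ∈ D, g y ≤ z ∧ z ≤ x

/-- Free amalgamation inside the universal homogeneous poset. -/
theorem UH.free (h : UH Ω) (D B : Finset Ω) (hDB : D ⊆ B) (E : Finset Ω) :
    ∃ g : Ω ≃o Ω, FreePos D B (D ∪ E) g := by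
  classical
  induction E using Finset.induction_on with
  | empty =>
    refine ⟨OrderIso.refl Ω, fun _ _ => rfl, ?_, ?_, ?_⟩
    · intro x hx _; simpa using hx
    · intro x hx y hy hxy
      rw [Finset.union_empty] at hy
      exact ⟨y, hy, hxy, le_refl _⟩
    · intro x hx y hy hxy
      rw [Finset.union_empty] at hy
      exact ⟨y, hy, le_refl _, hxy⟩
  | insert e E0 he ih =>
    obtain ⟨g0, hg0⟩ := ih
    by_cases heD : e ∈ D
    · have : D ∪ insert e E0 = D ∪ E0 := by
        ext x; simp only [Finset.mem_union, Finset.mem_insert]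
        constructor
        · rintro (h1 | rfl | h1)
          · exact Or.inl h1
          · exact Or.inl heD
          · exact Or.inr h1
        · rintro (h1 | h1)
          · exact Or.inl h1
          · exact Or.inr (Or.inr h1)
      rw [this]
      exact ⟨g0, hg0⟩
    have heE : e ∉ D ∪ E0 := by simp [heD, he]
    set E1 := D ∪ E0 with hE1
    set S := B ∪ E1.image g0 with hS
    set L := S.filter fun s => ∃ y ∈ E1, s ≤ g0 y ∧ y < e with hLdef
    set U := S.filter fun s => ∃ y ∈ E1, g0 y ≤ s ∧ e < y with hUdef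
    obtain ⟨w, hwS, hw⟩ := h.ext1 S L U (Finset.filter_subset _ _) (Finset.filter_subset _ _)
      (by
        intro l hl u hu
        rw [hLdef, Finset.mem_filter] at hl
        rw [hUdef, Finset.mem_filter] at hu
        obtain ⟨-, y, -, h1, h2⟩ := hl
        obtain ⟨-, y', -, h3, h4⟩ := hu
        exact lt_of_le_of_lt h1 (lt_of_lt_of_le (g0.lt_iff_lt.2 (h2.trans h4)) h3))
      (by
        intro x hx l hl hxl
        rw [hLdef, Finset.mem_filter] at hl ⊢
        obtain ⟨-, y, hy, h1, h2⟩ := hl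
        exact ⟨hx, y, hy, hxl.trans h1, h2⟩)
      (by
        intro x hx u hu hux
        rw [hUdef, Finset.mem_filter] at hu ⊢
        obtain ⟨-, y, hy, h1, h2⟩ := hu
        exact ⟨hx, y, hy, h1.trans hux, h2⟩)
    have hSg : ∀ y ∈ E1, g0 y ∈ S := fun y hy =>
      Finset.mem_union_right _ (Finset.mem_image_of_mem _ hy)
    have hwne : ∀ s ∈ S, s ≠ w := fun s hs h1 => hwS (h1 ▸ hs)
    have h1 : ∀ y ∈ E1, (g0 y ≤ w ↔ y ≤ e) := by
      intro y hy
      have hye : y ≠ e := fun h1 => heE (h1 ▸ hy)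
      rw [le_iff_lt_or_eq, or_iff_left (hwne _ (hSg y hy)), (hw _ (hSg y hy)).1, hLdef,
        Finset.mem_filter, le_iff_lt_or_eq, or_iff_left hye]
      constructor
      · rintro ⟨-, y', hy', h2, h3⟩
        exact lt_of_le_of_lt (g0.le_iff_le.1 h2) h3
      · intro h2
        exact ⟨hSg y hy, y, hy, le_refl _, h2⟩
    have h2 : ∀ y ∈ E1, (w ≤ g0 y ↔ e ≤ y) := by
      intro y hy
      have hye : e ≠ y := fun h1 => heE (h1 ▸ hy)
      rw [le_iff_lt_or_eq, or_iff_left (hwne _ (hSg y hy)).symm, (hw _ (hSg y hy)).2, hUdef,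
        Finset.mem_filter, le_iff_lt_or_eq, or_iff_left hye]
      constructor
      · rintro ⟨-, y', hy', h2, h3⟩
        exact lt_of_lt_of_le h3 (g0.le_iff_le.1 h2)
      · intro h2
        exact ⟨hSg y hy, y, hy, le_refl _, h2⟩
    obtain ⟨g, hg⟩ := h.homog_fin (insert e E1) (fun x => if x = e then w else g0 x) (by
      intro x hx y hy
      rw [Finset.mem_insert] at hx hy
      by_cases hxe : x = e
      · by_cases hye : y = e
        · rw [if_pos hxe, if_pos hye, hxe, hye]; simp
        · rw [if_pos hxe, if_neg hye, hxe]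
          exact h2 y (hy.resolve_left hye)
      · by_cases hye : y = e
        · rw [if_neg hxe, if_pos hye, hye]
          exact h1 x (hx.resolve_left hxe)
        · rw [if_neg hxe, if_neg hye]
          exact g0.le_iff_le)
    have hge : g e = w := by rw [hg e (Finset.mem_insert_self _ _), if_pos rfl]
    have hgE : ∀ x ∈ E1, g x = g0 x := by
      intro x hx
      have h3 : x ≠ e := by rintro rfl; exact heE hx
      rw [hg x (Finset.mem_insert_of_mem hx), if_neg h3]
    have hDE1 : D ⊆ E1 := Finset.subset_union_left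
    have hins : D ∪ insert e E0 = insert e E1 := by
      rw [hE1, Finset.union_insert]
    rw [hins]
    refine ⟨g, ?_, ?_, ?_, ?_⟩
    · intro x hx
      rw [hgE x (hDE1 hx), hg0.fix x hx]
    · intro x hx hxB
      rw [Finset.mem_insert] at hx
      rcases hx with rfl | hx
      · exfalso
        rw [hge] at hxB
        exact hwS (Finset.mem_union_left _ hxB)
      · rw [hgE x hx] at hxB
        exact hg0.disj x hx hxB
    · intro x hx y hy hxy
      rw [Finset.mem_insert] at hy
      rcases hy with rfl | hy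
      · rw [hge] at hxy ⊢
        have hxS : x ∈ S := Finset.mem_union_left _ hx
        have hlt : x < w := lt_of_le_of_ne hxy (hwne x hxS)
        have hxL := (hw x hxS).1.1 hlt
        rw [hLdef, Finset.mem_filter] at hxL
        obtain ⟨-, y', hy', h3, h4⟩ := hxL
        obtain ⟨z, hz, h5, h6⟩ := hg0.le x hx y' hy' h3
        refine ⟨z, hz, h5, ?_⟩
        have h7 : z ≤ y' := by
          have : g0 z ≤ g0 y' := by rw [hg0.fix z hz]; exact h6
          exact g0.le_iff_le.1 this
        have h8 := (h1 z (hDE1 hz)).2 (h7.trans h4.le)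
        rwa [hg0.fix z hz] at h8
      · rw [hgE y hy] at hxy ⊢
        exact hg0.le x hx y hy hxy
    · intro x hx y hy hxy
      rw [Finset.mem_insert] at hy
      rcases hy with rfl | hy
      · rw [hge] at hxy ⊢
        have hxS : x ∈ S := Finset.mem_union_left _ hx
        have hlt : w < x := lt_of_le_of_ne hxy (hwne x hxS).symm
        have hxU := (hw x hxS).2.1 hlt
        rw [hUdef, Finset.mem_filter] at hxU
        obtain ⟨-, y', hy', h3, h4⟩ := hxU
        obtain ⟨z, hz, h5, h6⟩ := hg0.ge x hx y' hy' h3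
        refine ⟨z, hz, ?_, h6⟩
        have h7 : y' ≤ z := by
          have : g0 y' ≤ g0 z := by rw [hg0.fix z hz]; exact h5
          exact g0.le_iff_le.1 this
        have h8 := (h2 z (hDE1 hz)).2 (h4.le.trans h7)
        rwa [hg0.fix z hz] at h8
      · rw [hgE y hy] at hxy ⊢
        exact hg0.ge x hx y hy hxy

theorem UH.free' (h : UH Ω) {D B E : Finset Ω} (hDB : D ⊆ B) (hDE : D ⊆ E) :
    ∃ g : Ω ≃o Ω, FreePos D B E g := by
  have := h.free D B hDB E
  rwa [Finset.union_eq_right.2 hDE] at this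

end Pool.Agent.MP984e59
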