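import Mathlib
import Pool.Agent.MP984e59.Ext

set_option autoImplicit false
set_option linter.unusedVariables false
set_option linter.unusedSectionVars false

/-!
# Free second orders on a poset
-/

namespace Pool.Agent.MP984e59

variable {Ω : Type} [PartialOrder Ω] [DecidableEq Ω]

/-- `cl x` is the principal down-set of `x` in a second partial order on `B`; all comparabilities
of the first order are interpolated by common elements. -/
structure StrOn (B : Set Ω) (cl : Ω → Finset Ω) : Prop where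
  self : ∀ x ∈ B, x ∈ cl x
  sub : ∀ x ∈ B, ∀ y ∈ cl x, y ∈ B
  trans : ∀ x ∈ B, ∀ y ∈ cl x, cl y ⊆ cl x
  anti : ∀ x ∈ B, ∀ y ∈ B, y ∈ cl x → x ∈ cl y → x = y
  free : ∀ x ∈ B, ∀ y ∈ B, x ≤ y → ∃ z, z ∈ cl x ∧ z ∈ cl y ∧ x ≤ z ∧ z ≤ y

/-- `C` is closed for `cl`. -/
def Closed (cl : Ω → Finset Ω) (C : Finset Ω) : Prop := ∀ x ∈ C, cl x ⊆ C

/-- A generic family of second orders (used for `I = Unit` and `I = Bool`). -/
structure GenFam {I : Type} (cl : I → Ω → Finset Ω) : Prop where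
  str : ∀ i, StrOn Set.univ (cl i)
  lf : ∀ D : Finset Ω, ∃ C : Finset Ω, D ⊆ C ∧ ∀ i, Closed (cl i) C
  ext : ∀ (D E : Finset Ω) (σ : I → Ω → Finset Ω), D ⊆ E → (∀ i, StrOn (E : Set Ω) (σ i)) →
    (∀ i, ∀ x ∈ D, cl i x = σ i x) → (∀ i, Closed (cl i) D) →
    ∃ g : Ω ≃o Ω, (∀ x ∈ D, g x = x) ∧ ∀ i, ∀ x ∈ E, cl i (g x) = (σ i x).image g

/-- Transport of a second order along an automorphism. -/
def act (g : Ω ≃o Ω) (cl : Ω → Finset Ω) : Ω → Finset Ω := fun x => (cl (g.symm x)).image g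

end Pool.Agent.MP984e59
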