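import Mathlib
import Pool.Agent.MP984e59.Defs
import Pool.Agent.SIP.Main

set_option autoImplicit false
set_option linter.unusedVariables false
set_option linter.unusedSectionVars false

/-!
# Unions of structures, isomorphism of generic families
-/

namespace Pool.Agent.MP984e59

open Pool.Agent.SIP

variable {Ω : Type} [PartialOrder Ω] [DecidableEq Ω]

theorem StrOn.restrict {B : Set Ω} {cl : Ω → Finset Ω} (h : StrOn B cl) {C : Finset Ω}
    (hC : (C : Set Ω) ⊆ B) (hcl : Closed cl C) : StrOn (C : Set Ω) cl where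
  self := fun x hx => h.self x (hC hx)
  sub := fun x hx y hy => hcl x hx hy
  trans := fun x hx => h.trans x (hC hx)
  anti := fun x hx y hy => h.anti x (hC hx) y (hC hy)
  free := fun x hx y hy => h.free x (hC hx) y (hC hy)

theorem act_apply (g : Ω ≃o Ω) (cl : Ω → Finset Ω) (x : Ω) : act g cl (g x) = (cl x).image g := by
  simp [act]

theorem mem_act (g : Ω ≃o Ω) (cl : Ω → Finset Ω) (x y : Ω) :
    g y ∈ act g cl (g x) ↔ y ∈ cl x := by
  rw [act_apply, Finset.mem_image]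
  constructor
  · rintro ⟨z, hz, hzy⟩
    rwa [← g.injective hzy]
  · intro h
    exact ⟨y, h, rfl⟩

theorem StrOn.act {B : Set Ω} {cl : Ω → Finset Ω} (h : StrOn B cl) (g : Ω ≃o Ω) :
    StrOn (g '' B) (act g cl) where
  self := by
    rintro _ ⟨x, hx, rfl⟩
    rw [mem_act]; exact h.self x hx
  sub := by
    rintro _ ⟨x, hx, rfl⟩ y hy
    obtain ⟨y, rfl⟩ := g.surjective y
    rw [mem_act] at hy
    exact ⟨y, h.sub x hx y hy, rfl⟩
  trans := by
    rintro _ ⟨x, hx, rfl⟩ y hy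
    obtain ⟨y, rfl⟩ := g.surjective y
    rw [mem_act] at hy
    rw [act_apply, act_apply]
    exact Finset.image_subset_image (h.trans x hx y hy)
  anti := by
    rintro _ ⟨x, hx, rfl⟩ _ ⟨y, hy, rfl⟩ h1 h2
    rw [mem_act] at h1 h2
    rw [h.anti x hx y hy h1 h2]
  free := by
    rintro _ ⟨x, hx, rfl⟩ _ ⟨y, hy, rfl⟩ hxy
    obtain ⟨z, hz1, hz2, hz3, hz4⟩ := h.free x hx y hy (g.le_iff_le.1 hxy)
    exact ⟨g z, (mem_act _ _ _ _).2 hz1, (mem_act _ _ _ _).2 hz2, g.le_iff_le.2 hz3,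
      g.le_iff_le.2 hz4⟩

/-- The union of a structure on `B` and a transported structure. -/
def uni (B : Finset Ω) (σ : Ω → Finset Ω) (g : Ω ≃o Ω) (τ : Ω → Finset Ω) : Ω → Finset Ω :=
  fun x => if x ∈ B then σ x else act g τ x

theorem uni_left {B : Finset Ω} {σ τ : Ω → Finset Ω} {g : Ω ≃o Ω} {x : Ω} (hx : x ∈ B) :
    uni B σ g τ x = σ x := by
  rw [uni, if_pos hx]

theorem image_of_fix {g : Ω ≃o Ω} {D : Finset Ω} (hg : ∀ x ∈ D, g x = x) {A : Finset Ω}
    (hA : A ⊆ D) : A.image g = A := by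
  ext y
  rw [Finset.mem_image]
  constructor
  · rintro ⟨x, hx, rfl⟩; rwa [hg x (hA hx)]
  · intro hy; exact ⟨y, hy, hg y (hA hy)⟩

theorem uni_right {D B E : Finset Ω} {σ τ : Ω → Finset Ω} {g : Ω ≃o Ω} (hg : FreePos D B E g)
    (hστ : ∀ x ∈ D, σ x = τ x) (hD : Closed σ D) {x : Ω} (hx : x ∈ E) :
    uni B σ g τ (g x) = (τ x).image g := by
  rw [uni]
  split_ifs with h
  · have hxD := hg.disj x hx h
    rw [hg.fix x hxD, ← hστ x hxD, image_of_fix hg.fix (hD x hxD)]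
  · exact act_apply _ _ _

theorem uni_str {D B E : Finset Ω} {σ τ : Ω → Finset Ω} {g : Ω ≃o Ω} (hg : FreePos D B E g)
    (hDB : D ⊆ B) (hDE : D ⊆ E) (hσ : StrOn (B : Set Ω) σ) (hτ : StrOn (E : Set Ω) τ)
    (hστ : ∀ x ∈ D, σ x = τ x) (hD : Closed σ D) :
    StrOn ((B ∪ E.image g : Finset Ω) : Set Ω) (uni B σ g τ) := by
  have hR : ∀ x ∈ E, uni B σ g τ (g x) = (τ x).image g := fun x hx => uni_right hg hστ hD hx
  have hLe : ∀ x ∈ B, uni B σ g τ x = σ x := fun x hx => uni_left hx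
  have hmem : ∀ x, x ∈ ((B ∪ E.image g : Finset Ω) : Set Ω) → x ∈ B ∨ ∃ y ∈ E, g y = x := by
    intro x hx
    rw [Finset.mem_coe, Finset.mem_union, Finset.mem_image] at hx
    exact hx
  refine ⟨?_, ?_, ?_, ?_, ?_⟩
  · intro x hx
    rcases hmem x hx with hx | ⟨y, hy, rfl⟩
    · rw [hLe x hx]; exact hσ.self x hx
    · rw [hR y hy]; exact Finset.mem_image_of_mem _ (hτ.self y hy)
  · intro x hx y hy
    rw [Finset.mem_coe, Finset.mem_union]
    rcases hmem x hx with hx | ⟨x', hx', rfl⟩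
    · rw [hLe x hx] at hy
      exact Or.inl (hσ.sub x hx y hy)
    · rw [hR x' hx', Finset.mem_image] at hy
      obtain ⟨y', hy', rfl⟩ := hy
      exact Or.inr (Finset.mem_image_of_mem _ (hτ.sub x' hx' y' hy'))
  · intro x hx y hy
    rcases hmem x hx with hx | ⟨x', hx', rfl⟩
    · rw [hLe x hx] at hy ⊢
      rw [hLe y (hσ.sub x hx y hy)]
      exact hσ.trans x hx y hy
    · rw [hR x' hx'] at hy ⊢
      obtain ⟨y', hy', rfl⟩ := Finset.mem_image.1 hy
      rw [hR y' (hτ.sub x' hx' y' hy')]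
      exact Finset.image_subset_image (hτ.trans x' hx' y' hy')
  · intro x hx y hy hyx hxy
    rcases hmem x hx with hx | ⟨x', hx', rfl⟩
    · rw [hLe x hx] at hyx
      have hyB : y ∈ B := hσ.sub x hx y hyx
      rw [hLe y hyB] at hxy
      exact hσ.anti x hx y hyB hyx hxy
    · rw [hR x' hx'] at hyx
      obtain ⟨y', hy', rfl⟩ := Finset.mem_image.1 hyx
      have hyE : y' ∈ E := hτ.sub x' hx' y' hy'
      rw [hR y' hyE] at hxy
      obtain ⟨x'', hx'', he⟩ := Finset.mem_image.1 hxy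
      rw [g.injective he] at hx''
      rw [hτ.anti x' hx' y' hyE hy' hx'']
  · intro x hx y hy hxy
    rcases hmem x hx with hx | ⟨x', hx', rfl⟩
    · rcases hmem y hy with hy | ⟨y', hy', rfl⟩
      · rw [hLe x hx, hLe y hy]
        exact hσ.free x hx y hy hxy
      · -- x in B, y = g y'
        obtain ⟨z, hz, h1, h2⟩ := hg.le x hx y' hy' hxy
        obtain ⟨z1, h3, h4, h5, h6⟩ := hσ.free x hx z (hDB hz) h1
        have hz1D : z1 ∈ D := hD z hz h4
        have h7 : z1 ≤ y' := by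
          have : g z1 ≤ g y' := by rw [hg.fix z1 hz1D]; exact h6.trans h2
          exact g.le_iff_le.1 this
        obtain ⟨z2, h8, h9, h10, h11⟩ := hτ.free z1 (hDE hz1D) y' hy' h7
        rw [← hστ z1 hz1D] at h8
        have hz2D : z2 ∈ D := hD z1 hz1D h8
        refine ⟨z2, ?_, ?_, h5.trans h10, ?_⟩
        · rw [hLe x hx]
          exact hσ.trans x hx z1 h3 h8
        · rw [hR y' hy', Finset.mem_image]
          exact ⟨z2, h9, hg.fix z2 hz2D⟩
        · rw [← hg.fix z2 hz2D]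
          exact g.le_iff_le.2 h11
    · rcases hmem y hy with hy | ⟨y', hy', rfl⟩
      · -- x = g x', y in B
        obtain ⟨z, hz, h1, h2⟩ := hg.ge y hy x' hx' hxy
        obtain ⟨z1, h3, h4, h5, h6⟩ := hσ.free z (hDB hz) y hy h2
        have hz1D : z1 ∈ D := hD z hz h3
        have h7 : x' ≤ z1 := by
          have : g x' ≤ g z1 := by rw [hg.fix z1 hz1D]; exact h1.trans h5
          exact g.le_iff_le.1 this
        obtain ⟨z2, h8, h9, h10, h11⟩ := hτ.free x' hx' z1 (hDE hz1D) h7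
        rw [← hστ z1 hz1D] at h9
        have hz2D : z2 ∈ D := hD z1 hz1D h9
        refine ⟨z2, ?_, ?_, ?_, h11.trans h6⟩
        · rw [hR x' hx', Finset.mem_image]
          exact ⟨z2, h8, hg.fix z2 hz2D⟩
        · rw [hLe y hy]
          exact hσ.trans y hy z1 h4 h9
        · rw [← hg.fix z2 hz2D]
          exact g.le_iff_le.2 h10
      · obtain ⟨z, h1, h2, h3, h4⟩ := hτ.free x' hx' y' hy' (g.le_iff_le.1 hxy)
        refine ⟨g z, ?_, ?_, g.le_iff_le.2 h3, g.le_iff_le.2 h4⟩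
        · rw [hR x' hx']; exact Finset.mem_image_of_mem _ h1
        · rw [hR y' hy']; exact Finset.mem_image_of_mem _ h2

/-! ### back and forth -/

variable {I : Type}

/-- A partial isomorphism between families. -/
structure PIso (cl cl' : I → Ω → Finset Ω) (C : Finset Ω) (g : Ω ≃o Ω) : Prop where
  closed : ∀ i, Closed (cl i) C
  map : ∀ i, ∀ x ∈ C, cl' i (g x) = (cl i x).image g

theorem PIso.symm {cl cl' : I → Ω → Finset Ω} {C : Finset Ω} {g : Ω ≃o Ω}
    (h : PIso cl cl' C g) : PIso cl' cl (C.image g) g.symm where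
  closed := by
    intro i y hy
    obtain ⟨x, hx, rfl⟩ := Finset.mem_image.1 hy
    rw [h.map i x hx]
    exact Finset.image_subset_image (h.closed i x hx)
  map := by
    intro i y hy
    obtain ⟨x, hx, rfl⟩ := Finset.mem_image.1 hy
    rw [h.map i x hx, Finset.image_image]
    have h1 : (g.symm ∘ g : Ω → Ω) = id := by ext z; simp
    rw [h1, Finset.image_id]
    simp

theorem PIso.forward {cl cl' : I → Ω → Finset Ω} (hcl : GenFam cl) (hcl' : GenFam cl')
    {C : Finset Ω} {g : Ω ≃o Ω} (h : PIso cl cl' C g) (D : Finset Ω) :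
    ∃ C' g', PIso cl cl' C' g' ∧ C ⊆ C' ∧ D ⊆ C' ∧ ∀ x ∈ C, g' x = g x := by
  obtain ⟨C', hC', hC'c⟩ := hcl.lf (C ∪ D)
  have hCC : C ⊆ C' := Finset.subset_union_left.trans hC'
  obtain ⟨k, hkD, hk⟩ := hcl'.ext (C.image g) (C'.image g) (fun i => act g (cl i))
    (Finset.image_subset_image hCC)
    (fun i => by
      have h1 := ((hcl.str i).restrict (Set.subset_univ _) (hC'c i)).act g
      rw [Finset.coe_image]
      exact h1)
    (fun i y hy => by
      obtain ⟨x, hx, rfl⟩ := Finset.mem_image.1 hy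
      rw [h.map i x hx, act_apply])
    (h.symm.closed)
  refine ⟨C', g.trans k, ⟨hC'c, ?_⟩, hCC, Finset.subset_union_right.trans hC', ?_⟩
  · intro i x hx
    have h1 := hk i (g x) (Finset.mem_image_of_mem _ hx)
    rw [act_apply, Finset.image_image] at h1
    rw [OrderIso.trans_apply, h1]
    rfl
  · intro x hx
    rw [OrderIso.trans_apply, hkD _ (Finset.mem_image_of_mem _ hx)]

theorem PIso.backward {cl cl' : I → Ω → Finset Ω} (hcl : GenFam cl) (hcl' : GenFam cl')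
    {C : Finset Ω} {g : Ω ≃o Ω} (h : PIso cl cl' C g) (D : Finset Ω) :
    ∃ C' g', PIso cl cl' C' g' ∧ C ⊆ C' ∧ (∀ y ∈ D, g'.symm y ∈ C') ∧ ∀ x ∈ C, g' x = g x := by
  obtain ⟨E, k, hEk, h1, h2, h3⟩ := PIso.forward hcl' hcl h.symm D
  have hs := hEk.symm
  refine ⟨E.image k, k.symm, hs, ?_, ?_, ?_⟩
  · intro x hx
    rw [Finset.mem_image]
    refine ⟨g x, h1 (Finset.mem_image_of_mem _ hx), ?_⟩
    rw [h3 _ (Finset.mem_image_of_mem _ hx)]
    simp
  · intro y hy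
    exact Finset.mem_image_of_mem _ (h2 hy)
  · intro x hx
    rw [OrderIso.symm_apply_eq, h3 _ (Finset.mem_image_of_mem _ hx)]
    simp

variable [Countable Ω] [Nonempty Ω]

/-- Generic families are isomorphic over any partial isomorphism. -/
theorem GenFam.iso {cl cl' : I → Ω → Finset Ω} (hcl : GenFam cl) (hcl' : GenFam cl')
    {C : Finset Ω} {g : Ω ≃o Ω} (h : PIso cl cl' C g) :
    ∃ k : Ω ≃o Ω, (∀ x ∈ C, k x = g x) ∧ ∀ i x, cl' i (k x) = (cl i x).image k := by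
  obtain ⟨e, he⟩ := exists_surjective_nat Ω
  let S := {p : Finset Ω × (Ω ≃o Ω) // PIso cl cl' p.1 p.2}
  let R : ℕ → S → S → Prop := fun n p q =>
    p.1.1 ⊆ q.1.1 ∧ (∀ x ∈ p.1.1, q.1.2 x = p.1.2 x) ∧ e n ∈ q.1.1 ∧ q.1.2.symm (e n) ∈ q.1.1
  have hstep : ∀ n p, ∃ q, R n p q := by
    rintro n ⟨⟨C, g⟩, hg⟩
    obtain ⟨C1, k1, hP1, hC1, hD1, ha1⟩ := PIso.forward hcl hcl' hg {e n}
    obtain ⟨C2, k2, hP2, hC2, hD2, ha2⟩ := PIso.backward hcl hcl' hP1 {e n}
    refine ⟨⟨⟨C2, k2⟩, hP2⟩, hC1.trans hC2, fun x hx => ?_, hC2 (hD1 (Finset.mem_singleton_self _)),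
      hD2 _ (Finset.mem_singleton_self _)⟩
    simp only at ha1 ha2 ⊢
    rw [ha2 x (hC1 hx), ha1 x hx]
  obtain ⟨s, hs0, hs⟩ := exists_seq R hstep ⟨⟨C, g⟩, h⟩
  obtain ⟨f, hf⟩ := limit_perm (g := fun n => (s n).1.2.toEquiv) (D := fun n => (s n).1.1)
    (fun n => (hs n).1) (fun n => (hs n).2.1)
    (fun x => by obtain ⟨n, rfl⟩ := he x; exact ⟨n + 1, (hs n).2.2.1⟩)
    (fun x => by obtain ⟨n, rfl⟩ := he x; exact ⟨n + 1, (hs n).2.2.2⟩)
  have hm : ∀ m n, n ≤ m → (s n).1.1 ⊆ (s m).1.1 := fun m n h =>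
    monotone_nat_of_le_succ (f := fun n => (s n).1.1) (fun n => (hs n).1) h
  have hcov : ∀ x, ∃ n, x ∈ (s n).1.1 := fun x => by
    obtain ⟨n, rfl⟩ := he x; exact ⟨n + 1, (hs n).2.2.1⟩
  have hf' : ∀ n, ∀ x ∈ (s n).1.1, f x = (s n).1.2 x := hf
  let k : Ω ≃o Ω := ⟨f, by
    intro x y
    obtain ⟨n, hn⟩ := hcov x
    obtain ⟨m, hm'⟩ := hcov y
    have h1 := hm (max n m) n (le_max_left _ _) hn
    have h2 := hm (max n m) m (le_max_right _ _) hm'
    rw [hf' _ x h1, hf' _ y h2]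
    exact (s (max n m)).1.2.le_iff_le⟩
  have hk : ∀ n, ∀ x ∈ (s n).1.1, k x = (s n).1.2 x := hf'
  refine ⟨k, fun x hx => ?_, ?_⟩
  · have := hk 0 x (by rw [hs0]; exact hx)
    rw [this, hs0]
  · intro i x
    obtain ⟨n, hn⟩ := hcov x
    rw [hk n x hn, (s n).2.map i x hn]
    apply Finset.image_congr
    intro y hy
    exact (hk n y ((s n).2.closed i x hn hy)).symm

end Pool.Agent.MP984e59
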