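import Mathlib
import Pool.Agent.MP984e59.BackForth

set_option autoImplicit false
set_option linter.unusedVariables false
set_option linter.unusedSectionVars false

/-!
# The automorphism group of a generic second order satisfies the axioms `Sys`
-/

namespace Pool.Agent.MP984e59

open Pool.Agent.SIP Equiv

variable {Ω : Type} [PartialOrder Ω] [DecidableEq Ω]

/-- Automorphisms of the poset preserving the second order, as permutations. -/
def KK (cl : Ω → Finset Ω) : Subgroup (Perm Ω) where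
  carrier := {f | (∀ x y, f x ≤ f y ↔ x ≤ y) ∧ ∀ x, cl (f x) = (cl x).image f}
  one_mem' := ⟨fun _ _ => Iff.rfl, fun x => by simp⟩
  mul_mem' := by
    rintro f g ⟨h1, h2⟩ ⟨h3, h4⟩
    refine ⟨fun x y => by rw [Perm.mul_apply, Perm.mul_apply, h1, h3], fun x => ?_⟩
    rw [Perm.mul_apply, h2, h4, Finset.image_image]
    rfl
  inv_mem' := by
    rintro f ⟨h1, h2⟩
    refine ⟨fun x y => ?_, fun x => ?_⟩
    · rw [← h1, app_inv, app_inv]
    · have h3 := h2 (f⁻¹ x)
      rw [app_inv] at h3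
      rw [h3, Finset.image_image]
      have : (⇑f⁻¹ ∘ ⇑f : Ω → Ω) = id := by ext z; simp
      rw [this, Finset.image_id]

theorem mem_KK {cl : Ω → Finset Ω} {f : Perm Ω} :
    f ∈ KK cl ↔ (∀ x y, f x ≤ f y ↔ x ≤ y) ∧ ∀ x, cl (f x) = (cl x).image f := Iff.rfl

theorem KK_closed {cl : Ω → Finset Ω} (hcl : StrOn Set.univ cl) : ClosedGp (KK cl) := by
  intro f hf
  refine ⟨fun x y => ?_, fun x => ?_⟩
  · obtain ⟨k, hk, h⟩ := hf {x, y}
    rw [← h x (by simp), ← h y (by simp)]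
    exact hk.1 x y
  · obtain ⟨k, hk, h⟩ := hf (cl x)
    rw [← h x (hcl.self x trivial), hk.2 x]
    exact Finset.image_congr fun y hy => h y hy

variable [Countable Ω] [Nonempty Ω]

theorem homK {cl : Ω → Finset Ω} (hcl : GenFam (fun _ : Unit => cl)) {C : Finset Ω}
    (hC : Closed cl C) {g : Ω ≃o Ω} (hg : ∀ x ∈ C, cl (g x) = (cl x).image g) :
    ∃ k ∈ KK cl, ∀ x ∈ C, k x = g x := by
  obtain ⟨k, hk, hk2⟩ := hcl.iso hcl (C := C) (g := g) ⟨fun _ => hC, fun _ => hg⟩
  exact ⟨k.toEquiv, ⟨fun x y => k.le_iff_le, fun x => hk2 () x⟩, hk⟩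

theorem homK' {cl : Ω → Finset Ω} (h : UH Ω) (hcl : GenFam (fun _ : Unit => cl)) {C : Finset Ω}
    (hC : Closed cl C) {φ : Ω → Ω} (hφ : ∀ x ∈ C, ∀ y ∈ C, φ x ≤ φ y ↔ x ≤ y)
    (hφ2 : ∀ x ∈ C, cl (φ x) = (cl x).image φ) : ∃ k ∈ KK cl, ∀ x ∈ C, k x = φ x := by
  obtain ⟨g, hg⟩ := h.homog_fin C φ hφ
  obtain ⟨k, hk, hk2⟩ := homK hcl hC (g := g) (by
    intro x hx
    rw [hg x hx, hφ2 x hx]
    exact Finset.image_congr fun y hy => (hg y (hC x hx hy)).symm)
  exact ⟨k, hk, fun x hx => by rw [hk2 x hx, hg x hx]⟩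

theorem Closed.image {cl : Ω → Finset Ω} {C : Finset Ω} (hC : Closed cl C) {k : Perm Ω}
    (hk : k ∈ KK cl) : Closed cl (C.image k) := by
  intro y hy
  obtain ⟨x, hx, rfl⟩ := Finset.mem_image.1 hy
  rw [hk.2 x]
  exact Finset.image_subset_image (hC x hx)

/-! ### amalgamation -/

theorem amalgK {cl : Ω → Finset Ω} (h : UH Ω) (hcl : GenFam (fun _ : Unit => cl))
    {D A E : Finset Ω} (hD : Closed cl D) (hA : Closed cl A) (hE : Closed cl E) (hDA : D ⊆ A)
    (hDE : D ⊆ E) : ∃ k ∈ KK cl, (∀ x ∈ D, k x = x) ∧ ∃ F, Closed cl F ∧ A ⊆ F ∧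
      (∀ x ∈ E, k x ∈ F) ∧ ∀ a ∈ KK cl, ∀ e ∈ KK cl, Inv a A → Inv e E → Inv a D →
      (∀ x ∈ D, e x = a x) → ∃ b ∈ KK cl, Inv b F ∧ (∀ x ∈ A, b x = a x) ∧
        ∀ x ∈ E, b (k x) = k (e x) := by
  have hstr := hcl.str ()
  obtain ⟨g, hg⟩ := h.free' hDA hDE
  obtain ⟨r, hrA, hr⟩ := hcl.ext A (A ∪ E.image g) (fun _ => uni A cl g cl)
    Finset.subset_union_left
    (fun _ => uni_str hg hDA hDE (hstr.restrict (Set.subset_univ _) hA)
      (hstr.restrict (Set.subset_univ _) hE) (fun _ _ => rfl) hD)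
    (fun _ x hx => (uni_left hx).symm) (fun _ => hA)
  have hgE : ∀ x ∈ E, cl (r (g x)) = (cl x).image (g.trans r) := by
    intro x hx
    have h1 := hr () (g x) (Finset.mem_union_right _ (Finset.mem_image_of_mem _ hx))
    rw [h1, uni_right hg (fun _ _ => rfl) hD hx, Finset.image_image]
    rfl
  obtain ⟨k, hk, hkE⟩ := homK hcl hE (g := g.trans r) hgE
  have hkE' : ∀ x ∈ E, k x = r (g x) := hkE
  have hkD : ∀ x ∈ D, k x = x := fun x hx => by
    rw [hkE' x (hDE hx), hg.fix x hx, hrA x (hDA hx)]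
  -- freeness of k E over A
  have hdisj : ∀ x ∈ E, k x ∈ A → x ∈ D := by
    intro x hx hkx
    rw [hkE' x hx] at hkx
    have h1 := hrA _ hkx
    have h2 := r.injective h1
    rw [h2] at hkx
    exact hg.disj x hx hkx
  have hle : ∀ x ∈ A, ∀ y ∈ E, x ≤ k y → ∃ z ∈ D, x ≤ z ∧ z ≤ y := by
    intro x hx y hy hxy
    rw [hkE' y hy] at hxy
    have h1 : x ≤ g y := by
      have : r x ≤ r (g y) := by rw [hrA x hx]; exact hxy
      exact r.le_iff_le.1 this
    obtain ⟨z, hz, h2, h3⟩ := hg.le x hx y hy h1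
    refine ⟨z, hz, h2, ?_⟩
    have : g z ≤ g y := by rw [hg.fix z hz]; exact h3
    exact g.le_iff_le.1 this
  have hge : ∀ x ∈ A, ∀ y ∈ E, k y ≤ x → ∃ z ∈ D, y ≤ z ∧ z ≤ x := by
    intro x hx y hy hxy
    rw [hkE' y hy] at hxy
    have h1 : g y ≤ x := by
      have : r (g y) ≤ r x := by rw [hrA x hx]; exact hxy
      exact r.le_iff_le.1 this
    obtain ⟨z, hz, h2, h3⟩ := hg.ge x hx y hy h1
    refine ⟨z, hz, ?_, h3⟩
    have : g y ≤ g z := by rw [hg.fix z hz]; exact h2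
    exact g.le_iff_le.1 this
  have hF : Closed cl (A ∪ E.image k) := by
    intro x hx
    rw [Finset.mem_union] at hx
    rcases hx with hx | hx
    · exact (hA x hx).trans Finset.subset_union_left
    · exact ((hE.image hk) x hx).trans Finset.subset_union_right
  refine ⟨k, hk, hkD, A ∪ E.image k, hF, Finset.subset_union_left,
    fun x hx => Finset.mem_union_right _ (Finset.mem_image_of_mem _ hx), ?_⟩
  intro a ha e he haA heE haD hea
  -- the combined map
  let φ : Ω → Ω := fun y => if y ∈ A then a y else k (e (k⁻¹ y))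
  have hφA : ∀ x ∈ A, φ x = a x := fun x hx => if_pos hx
  have hφE : ∀ x ∈ E, φ (k x) = k (e x) := by
    intro x hx
    by_cases h1 : k x ∈ A
    · have hxD := hdisj x hx h1
      have h2 : e x ∈ D := by rw [hea x hxD]; exact (haD x).1 hxD
      rw [hφA _ h1, hkD x hxD, ← hea x hxD, hkD _ h2]
    · have : φ (k x) = k (e (k⁻¹ (k x))) := if_neg h1
      rw [this, inv_app]
  -- key comparison
  have key1 : ∀ x ∈ A, ∀ y ∈ E, (a x ≤ k (e y) ↔ x ≤ k y) := by
    intro x hx y hy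
    constructor
    · intro h1
      obtain ⟨z', hz', h2, h3⟩ := hle (a x) ((haA x).1 hx) (e y) ((heE y).1 hy) h1
      obtain ⟨z, rfl⟩ := a.surjective z'
      have hz : z ∈ D := (haD z).2 hz'
      rw [← hea z hz] at h3
      have h4 : z ≤ y := (he.1 z y).1 h3
      have h5 : x ≤ z := (ha.1 x z).1 h2
      calc x ≤ z := h5
        _ = k z := (hkD z hz).symm
        _ ≤ k y := (hk.1 z y).2 h4
    · intro h1
      obtain ⟨z, hz, h2, h3⟩ := hle x hx y hy h1
      have haz : a z ∈ D := (haD z).1 hz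
      calc a x ≤ a z := (ha.1 x z).2 h2
        _ = k (a z) := (hkD _ haz).symm
        _ = k (e z) := by rw [hea z hz]
        _ ≤ k (e y) := (hk.1 _ _).2 ((he.1 z y).2 h3)
  have key2 : ∀ x ∈ A, ∀ y ∈ E, (k (e y) ≤ a x ↔ k y ≤ x) := by
    intro x hx y hy
    constructor
    · intro h1
      obtain ⟨z', hz', h2, h3⟩ := hge (a x) ((haA x).1 hx) (e y) ((heE y).1 hy) h1
      obtain ⟨z, rfl⟩ := a.surjective z'
      have hz : z ∈ D := (haD z).2 hz'
      rw [← hea z hz] at h2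
      have h4 : y ≤ z := (he.1 y z).1 h2
      have h5 : z ≤ x := (ha.1 z x).1 h3
      calc k y ≤ k z := (hk.1 y z).2 h4
        _ = z := hkD z hz
        _ ≤ x := h5
    · intro h1
      obtain ⟨z, hz, h2, h3⟩ := hge x hx y hy h1
      have haz : a z ∈ D := (haD z).1 hz
      calc k (e y) ≤ k (e z) := (hk.1 _ _).2 ((he.1 y z).2 h2)
        _ = k (a z) := by rw [hea z hz]
        _ = a z := hkD _ haz
        _ ≤ a x := (ha.1 z x).2 h3
  have hmem : ∀ x, x ∈ A ∪ E.image k → x ∈ A ∨ ∃ y ∈ E, k y = x := by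
    intro x hx
    rw [Finset.mem_union, Finset.mem_image] at hx
    exact hx
  obtain ⟨b, hb, hbF⟩ := homK' h hcl hF (φ := φ) (by
      intro x hx y hy
      rcases hmem x hx with hx' | ⟨x', hx', rfl⟩ <;> rcases hmem y hy with hy' | ⟨y', hy', rfl⟩
      · rw [hφA x hx', hφA y hy']; exact ha.1 x y
      · rw [hφA x hx', hφE y' hy']; exact key1 x hx' y' hy'
      · rw [hφE x' hx', hφA y hy']; exact key2 y hy' x' hx'
      · rw [hφE x' hx', hφE y' hy', hk.1, he.1, hk.1]) (by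
      intro x hx
      rcases hmem x hx with hx' | ⟨x', hx', rfl⟩
      · rw [hφA x hx', ha.2 x]
        exact Finset.image_congr fun y hy => (hφA y (hA x hx' hy)).symm
      · rw [hφE x' hx', hk.2, he.2, hk.2 x', Finset.image_image, Finset.image_image]
        exact Finset.image_congr fun y hy => (hφE y (hE x' hx' hy)).symm)
  refine ⟨b, hb, ?_, ?_, ?_⟩
  · apply Inv.of_forall
    intro x hx
    rw [hbF x hx]
    rcases hmem x hx with hx' | ⟨x', hx', rfl⟩
    · rw [hφA x hx']; exact Finset.mem_union_left _ ((haA x).1 hx')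
    · rw [hφE x' hx']
      exact Finset.mem_union_right _ (Finset.mem_image_of_mem _ ((heE x').1 hx'))
  · intro x hx
    rw [hbF x (Finset.mem_union_left _ hx), hφA x hx]
  · intro x hx
    rw [hbF _ (Finset.mem_union_right _ (Finset.mem_image_of_mem _ hx)), hφE x hx]

end Pool.Agent.MP984e59
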