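import Mathlib
import Pool.Agent.MP984e59.SysP

set_option autoImplicit false
set_option linter.unusedVariables false
set_option linter.unusedSectionVars false

/-!
# The extension property for partial automorphisms of a generic second order
-/

namespace Pool.Agent.MP984e59

open Pool.Agent.SIP Equiv

variable {Ω : Type} [PartialOrder Ω] [DecidableEq Ω]

/-- `x` and `y` have the same proper part and relate in the same way to it. -/
def rel (cl : Ω → Finset Ω) (x y : Ω) : Prop :=
  (cl x).erase x = (cl y).erase y ∧ ∀ z ∈ (cl x).erase x, (z ≤ x ↔ z ≤ y) ∧ (x ≤ z ↔ y ≤ z)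

theorem rel.refl (cl : Ω → Finset Ω) (x : Ω) : rel cl x x := ⟨rfl, fun _ _ => ⟨Iff.rfl, Iff.rfl⟩⟩

theorem rel.symm {cl : Ω → Finset Ω} {x y : Ω} (h : rel cl x y) : rel cl y x :=
  ⟨h.1.symm, fun z hz => by
    rw [← h.1] at hz
    exact ⟨(h.2 z hz).1.symm, (h.2 z hz).2.symm⟩⟩

theorem rel.trans {cl : Ω → Finset Ω} {x y z : Ω} (h : rel cl x y) (h' : rel cl y z) :
    rel cl x z :=
  ⟨h.1.trans h'.1, fun w hw => by
    have hw' := hw
    rw [h.1] at hw'
    exact ⟨(h.2 w hw).1.trans (h'.2 w hw').1, (h.2 w hw).2.trans (h'.2 w hw').2⟩⟩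

theorem rel.cls {cl : Ω → Finset Ω} {x y : Ω} (h : rel cl x y) :
    {z | rel cl x z} = {z | rel cl y z} := by
  ext z
  exact ⟨fun h1 => h.symm.trans h1, fun h1 => h.trans h1⟩

theorem StrOn.cl_eq {cl : Ω → Finset Ω} (hstr : StrOn Set.univ cl) (x : Ω) :
    insert x ((cl x).erase x) = cl x := Finset.insert_erase (hstr.self x trivial)

theorem StrOn.closed_cl {cl : Ω → Finset Ω} (hstr : StrOn Set.univ cl) (x : Ω) :
    Closed cl (cl x) := fun y hy => hstr.trans x trivial y hy

theorem StrOn.closed_erase {cl : Ω → Finset Ω} (hstr : StrOn Set.univ cl) (x : Ω) :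
    Closed cl ((cl x).erase x) := by
  intro y hy z hz
  rw [Finset.mem_erase] at hy ⊢
  refine ⟨?_, hstr.trans x trivial y hy.2 hz⟩
  rintro rfl
  exact hy.1 (hstr.anti _ trivial _ trivial hz hy.2)

theorem StrOn.card_lt {cl : Ω → Finset Ω} (hstr : StrOn Set.univ cl) {x y : Ω}
    (hy : y ∈ (cl x).erase x) : (cl y).card < (cl x).card := by
  have h1 := Finset.card_le_card (hstr.closed_erase x y hy)
  have h2 := Finset.card_erase_add_one (hstr.self x trivial)
  omega

theorem rel.card {cl : Ω → Finset Ω} (hstr : StrOn Set.univ cl) {x y : Ω} (h : rel cl x y) :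
    (cl x).card = (cl y).card := by
  have h2 := Finset.card_erase_add_one (hstr.self x trivial)
  have h3 := Finset.card_erase_add_one (hstr.self y trivial)
  rw [h.1] at h2
  omega

theorem rel.le_aux {cl : Ω → Finset Ω} (hstr : StrOn Set.univ cl) {x y z : Ω} (h : rel cl x y)
    (hx : x ∉ cl z) (hzx : z ≤ x) : z ≤ y := by
  obtain ⟨u, h1, h2, h3, h4⟩ := hstr.free z trivial x trivial hzx
  have hu : u ∈ (cl x).erase x := by
    rw [Finset.mem_erase]
    exact ⟨fun h5 => hx (h5 ▸ h1), h2⟩
  exact h3.trans ((h.2 u hu).1.1 h4)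

theorem rel.ge_aux {cl : Ω → Finset Ω} (hstr : StrOn Set.univ cl) {x y z : Ω} (h : rel cl x y)
    (hx : x ∉ cl z) (hzx : x ≤ z) : y ≤ z := by
  obtain ⟨u, h1, h2, h3, h4⟩ := hstr.free x trivial z trivial hzx
  have hu : u ∈ (cl x).erase x := by
    rw [Finset.mem_erase]
    exact ⟨fun h5 => hx (h5 ▸ h2), h1⟩
  exact ((h.2 u hu).2.1 h3).trans h4

theorem rel.le_iff {cl : Ω → Finset Ω} (hstr : StrOn Set.univ cl) {x y z : Ω} (h : rel cl x y)
    (hx : x ∉ cl z) (hy : y ∉ cl z) : z ≤ x ↔ z ≤ y :=
  ⟨h.le_aux hstr hx, h.symm.le_aux hstr hy⟩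

theorem rel.ge_iff {cl : Ω → Finset Ω} (hstr : StrOn Set.univ cl) {x y z : Ω} (h : rel cl x y)
    (hx : x ∉ cl z) (hy : y ∉ cl z) : x ≤ z ↔ y ≤ z :=
  ⟨h.ge_aux hstr hx, h.symm.ge_aux hstr hy⟩

theorem erase_KK {cl : Ω → Finset Ω} {k : Perm Ω} (hk : k ∈ KK cl) (x : Ω) :
    (cl (k x)).erase (k x) = ((cl x).erase x).image k := by
  rw [hk.2 x, Finset.image_erase k.injective]

theorem rel_KK {cl : Ω → Finset Ω} {k : Perm Ω} (hk : k ∈ KK cl) (x y : Ω) :
    rel cl (k x) (k y) ↔ rel cl x y := by
  unfold rel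
  rw [erase_KK hk, erase_KK hk, Finset.image_injective k.injective |>.eq_iff]
  constructor
  · rintro ⟨h1, h2⟩
    refine ⟨h1, fun z hz => ?_⟩
    have := h2 (k z) (Finset.mem_image_of_mem _ hz)
    rwa [hk.1, hk.1, hk.1, hk.1] at this
  · rintro ⟨h1, h2⟩
    refine ⟨h1, fun z hz => ?_⟩
    obtain ⟨z, hz', rfl⟩ := Finset.mem_image.1 hz
    rw [hk.1, hk.1, hk.1, hk.1]
    exact h2 z hz'

theorem rel_infinite {cl : Ω → Finset Ω} (h : UH Ω) (hcl : GenFam (fun _ : Unit => cl)) (x : Ω) :
    {y | rel cl x y}.Infinite := by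
  intro hfin
  have hstr := hcl.str ()
  obtain ⟨B, hB, hBc⟩ := hcl.lf (hfin.toFinset ∪ cl x)
  have hBc : Closed cl B := hBc ()
  set D := (cl x).erase x with hDdef
  have hDB : D ⊆ B := (Finset.erase_subset _ _).trans (Finset.subset_union_right.trans hB)
  have hDE : D ⊆ cl x := Finset.erase_subset _ _
  obtain ⟨g, hg⟩ := h.free' hDB hDE
  obtain ⟨r, hrB, hr⟩ := hcl.ext B (B ∪ (cl x).image g) (fun _ => uni B cl g cl)
    Finset.subset_union_left
    (fun _ => uni_str hg hDB hDE (hstr.restrict (Set.subset_univ _) hBc)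
      (hstr.restrict (Set.subset_univ _) (hstr.closed_cl x)) (fun _ _ => rfl)
      (hstr.closed_erase x))
    (fun _ y hy => (uni_left hy).symm) (fun _ => hBc)
  have hxx := hstr.self x trivial
  have h1 := hr () (g x) (Finset.mem_union_right _ (Finset.mem_image_of_mem _ hxx))
  rw [uni_right hg (fun _ _ => rfl) (hstr.closed_erase x) hxx, Finset.image_image] at h1
  have hyB : r (g x) ∉ B := by
    intro hy
    have h2 := r.injective (hrB _ hy)
    rw [h2] at hy
    have h3 := hg.disj x hxx hy
    rw [hDdef, Finset.mem_erase] at h3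
    exact h3.1 rfl
  have hfixD : ∀ z ∈ D, r (g z) = z := fun z hz => by rw [hg.fix z hz, hrB z (hDB hz)]
  have herase : (cl (r (g x))).erase (r (g x)) = D := by
    have h2 : (cl (r (g x))).erase (r (g x)) = D.image (r ∘ g) := by
      rw [h1, hDdef, Finset.image_erase (r.injective.comp g.injective)]
      rfl
    rw [h2]
    ext z
    rw [Finset.mem_image]
    constructor
    · rintro ⟨w, hw, rfl⟩
      rw [Function.comp_apply, hfixD w hw]; exact hw
    · intro hz; exact ⟨z, hz, hfixD z hz⟩
  have hrel : rel cl x (r (g x)) := by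
    refine ⟨herase.symm, fun z hz => ?_⟩
    constructor
    · conv_rhs => rw [← hfixD z hz, r.le_iff_le, g.le_iff_le]
    · conv_rhs => rw [← hfixD z hz, r.le_iff_le, g.le_iff_le]
  exact hyB (hB (Finset.mem_union_left _ (hfin.mem_toFinset.2 hrel)))

theorem exists_sel (C : Finset Ω) : ∃ sel : Set Ω → Finset Ω, ∀ t : Set Ω, t.Infinite →
    (∀ x ∈ C, x ∈ t → x ∈ sel t) ∧ (∀ x ∈ sel t, x ∈ t) ∧ (sel t).card = C.card := by
  classical
  have h1 : ∀ t : Set Ω, ∃ s : Finset Ω, t.Infinite →
      (∀ x ∈ C, x ∈ t → x ∈ s) ∧ (∀ x ∈ s, x ∈ t) ∧ s.card = C.card := by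
    intro t
    by_cases ht : t.Infinite
    · have h2 : (t \ (C : Set Ω)).Infinite := ht.sdiff C.finite_toSet
      obtain ⟨s, hs, hsc⟩ := h2.exists_subset_card_eq (C.card - (C.filter (· ∈ t)).card)
      refine ⟨C.filter (· ∈ t) ∪ s, fun _ => ⟨?_, ?_, ?_⟩⟩
      · intro x hx hxt
        exact Finset.mem_union_left _ (Finset.mem_filter.2 ⟨hx, hxt⟩)
      · intro x hx
        rcases Finset.mem_union.1 hx with hx | hx
        · exact (Finset.mem_filter.1 hx).2
        · exact (hs hx).1
      · rw [Finset.card_union_of_disjoint, hsc]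
        · have := Finset.card_le_card (Finset.filter_subset (· ∈ t) C)
          omega
        · rw [Finset.disjoint_left]
          intro x hx hx'
          exact (hs hx').2 (Finset.mem_filter.1 hx).1
    · exact ⟨∅, fun h => absurd h ht⟩
  choose sel hsel using h1
  exact ⟨sel, hsel⟩

theorem eppa_finite {cl : Ω → Finset Ω} (hstr : StrOn Set.univ cl) (M : ℕ)
    (sel : Set Ω → Finset Ω) :
    {x | (cl x).card ≤ M ∧ ∀ y ∈ cl x, y ∈ sel {z | rel cl y z}}.Finite := by
  classical
  set T : Set Ω := {x | ∀ y ∈ cl x, y ∈ sel {z | rel cl y z}} with hT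
  have key : ∀ n, {x | (cl x).card ≤ n ∧ x ∈ T}.Finite := by
    intro n
    induction n with
    | zero =>
      have : {x | (cl x).card ≤ 0 ∧ x ∈ T} = ∅ := by
        ext x
        simp only [Set.mem_ofPred_eq, Set.mem_empty_iff_false, iff_false, not_and]
        intro h1
        have := Finset.card_pos.2 ⟨x, hstr.self x trivial⟩
        omega
      rw [this]
      exact Set.finite_empty
    | succ n ih =>
      set S := ih.toFinset with hS
      let f : Ω → Finset Ω × Finset Ω × Finset Ω := fun x =>
        ((cl x).erase x, ((cl x).erase x).filter (· ≤ x), ((cl x).erase x).filter (x ≤ ·))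
      apply Set.Finite.of_finite_fibers f
      · apply Set.Finite.subset ((S.powerset ×ˢ (S.powerset ×ˢ S.powerset)).finite_toSet)
        rintro _ ⟨x, ⟨hx1, hx2⟩, rfl⟩
        have hsub : (cl x).erase x ⊆ S := by
          intro z hz
          rw [hS, Set.Finite.mem_toFinset]
          refine ⟨?_, ?_⟩
          · have := hstr.card_lt hz; omega
          · intro y hy
            exact hx2 y (hstr.trans x trivial z (Finset.mem_of_mem_erase hz) hy)
        rw [Finset.mem_coe, Finset.mem_product, Finset.mem_product, Finset.mem_powerset,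
          Finset.mem_powerset, Finset.mem_powerset]
        exact ⟨hsub, (Finset.filter_subset _ _).trans hsub, (Finset.filter_subset _ _).trans hsub⟩
      · rintro _ ⟨x, ⟨hx1, hx2⟩, rfl⟩
        apply Set.Finite.subset (sel {z | rel cl x z}).finite_toSet
        rintro y ⟨⟨hy1, hy2⟩, hy3⟩
        have h1 : f y = f x := hy3
        have h2 : (cl y).erase y = (cl x).erase x := congrArg (fun p => p.1) h1
        have h3 : ((cl y).erase y).filter (· ≤ y) = ((cl x).erase x).filter (· ≤ x) :=
          congrArg (fun p => p.2.1) h1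
        have h4 : ((cl y).erase y).filter (y ≤ ·) = ((cl x).erase x).filter (x ≤ ·) :=
          congrArg (fun p => p.2.2) h1
        have hrel : rel cl y x := by
          refine ⟨h2, fun z hz => ⟨?_, ?_⟩⟩
          · have h5 := Finset.ext_iff.1 h3 z
            rw [Finset.mem_filter, Finset.mem_filter, ← h2] at h5
            constructor
            · intro h6; exact (h5.1 ⟨hz, h6⟩).2
            · intro h6; exact (h5.2 ⟨hz, h6⟩).2
          · have h5 := Finset.ext_iff.1 h4 z
            rw [Finset.mem_filter, Finset.mem_filter, ← h2] at h5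
            constructor
            · intro h6; exact (h5.1 ⟨hz, h6⟩).2
            · intro h6; exact (h5.2 ⟨hz, h6⟩).2
        have h5 := hy2 y (hstr.self y trivial)
        rw [hrel.cls] at h5
        exact h5
  exact key M

variable [Countable Ω] [Nonempty Ω]

theorem eppa_step {cl : Ω → Finset Ω} (h : UH Ω) (hcl : GenFam (fun _ : Unit => cl)) (M : ℕ)
    {sel : Set Ω → Finset Ω} (hsel : ∀ t : Set Ω, t.Infinite →
      (∀ x ∈ sel t, x ∈ t) ∧ (sel t).card = M) {E : Finset Ω}
    (hE : ∀ x, x ∈ E ↔ (cl x).card ≤ M ∧ ∀ y ∈ cl x, y ∈ sel {z | rel cl y z}) :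
    ∀ n, ∀ A : Finset Ω, Closed cl A → A ⊆ E → (E \ A).card ≤ n → ∀ k ∈ KK cl,
      (∀ x ∈ A, k x ∈ E) → ∃ k' ∈ KK cl, (∀ x ∈ A, k' x = k x) ∧ Inv k' E := by
  classical
  have hstr := hcl.str ()
  have hEc : Closed cl E := by
    intro x hx y hy
    rw [hE] at hx ⊢
    have hs := hstr.trans x trivial y hy
    exact ⟨(Finset.card_le_card hs).trans hx.1, fun z hz => hx.2 z (hs hz)⟩
  intro n
  induction n with
  | zero =>
    intro A hA hAE hc k hk hkA
    have : E \ A = ∅ := Finset.card_eq_zero.1 (Nat.le_zero.1 hc)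
    rw [Finset.sdiff_eq_empty_iff_subset] at this
    exact ⟨k, hk, fun _ _ => rfl, Inv.of_forall fun x hx => hkA x (this hx)⟩
  | succ n ih =>
    intro A hA hAE hc k hk hkA
    by_cases hne : (E \ A).Nonempty
    · obtain ⟨x, hx, hmin⟩ := Finset.exists_min_image (E \ A) (fun x => (cl x).card) hne
      rw [Finset.mem_sdiff] at hx
      obtain ⟨hxE, hxA⟩ := hx
      have hproper : (cl x).erase x ⊆ A := by
        intro z hz
        by_contra hzA
        have h1 := hmin z (Finset.mem_sdiff.2 ⟨hEc x hxE (Finset.mem_of_mem_erase hz), hzA⟩)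
        have h2 := hstr.card_lt hz
        omega
      -- find the image
      have hcard : ((A.filter (fun z => rel cl x z)).image k).card <
          (sel {z | rel cl (k x) z}).card := by
        rw [(hsel _ (rel_infinite h hcl (k x))).2, Finset.card_image_of_injective _ k.injective]
        rw [← (hsel _ (rel_infinite h hcl x)).2]
        apply Finset.card_lt_card
        rw [Finset.ssubset_iff_of_subset]
        · refine ⟨x, ((hE x).1 hxE).2 x (hstr.self x trivial), ?_⟩
          rw [Finset.mem_filter]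
          exact fun h1 => hxA h1.1
        · intro z hz
          rw [Finset.mem_filter] at hz
          have h1 := ((hE z).1 (hAE hz.1)).2 z (hstr.self z trivial)
          have h2 : rel cl x z := hz.2
          rwa [← h2.cls] at h1
      obtain ⟨y, hy, hyn⟩ := Finset.exists_mem_notMem_of_card_lt_card hcard
      have hrel : rel cl (k x) y := (hsel _ (rel_infinite h hcl (k x))).1 y hy
      have hyA : ∀ z ∈ A, k z ≠ y := by
        rintro z hz rfl
        apply hyn
        apply Finset.mem_image_of_mem
        rw [Finset.mem_filter]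
        exact ⟨hz, (rel_KK hk x z).1 hrel⟩
      have hkxA : ∀ z ∈ A, k z ≠ k x := fun z hz h1 => hxA (k.injective h1 ▸ hz)
      have hkerase : ∀ z ∈ (cl (k x)).erase (k x), z ∈ E := by
        intro z hz
        rw [erase_KK hk] at hz
        obtain ⟨w, hw, rfl⟩ := Finset.mem_image.1 hz
        exact hkA w (hproper hw)
      have hyE : y ∈ E := by
        rw [hE]
        constructor
        · rw [← hrel.card hstr, hk.2 x, Finset.card_image_of_injective _ k.injective]
          exact ((hE x).1 hxE).1
        · intro z hz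
          by_cases hzy : z = y
          · rw [hzy, ← hrel.cls]
            exact hy
          · have h1 : z ∈ (cl y).erase y := Finset.mem_erase.2 ⟨hzy, hz⟩
            rw [← hrel.1] at h1
            exact ((hE z).1 (hkerase z h1)).2 z (hstr.self z trivial)
      -- the extended map
      have hA' : Closed cl (insert x A) := by
        intro z hz
        rw [Finset.mem_insert] at hz
        rcases hz with rfl | hz
        · rw [← hstr.cl_eq z]
          exact Finset.insert_subset_insert _ hproper
        · exact (hA z hz).trans (Finset.subset_insert _ _)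
      have hcln : ∀ z ∈ A, k x ∉ cl (k z) ∧ y ∉ cl (k z) := by
        intro z hz
        rw [hk.2 z]
        constructor
        · intro h1
          obtain ⟨w, hw, h2⟩ := Finset.mem_image.1 h1
          exact hkxA w (hA z hz hw) h2
        · intro h1
          obtain ⟨w, hw, h2⟩ := Finset.mem_image.1 h1
          exact hyA w (hA z hz hw) h2
      let φ : Ω → Ω := fun z => if z = x then y else k z
      have hφx : φ x = y := if_pos rfl
      have hφA : ∀ z ∈ A, φ z = k z := fun z hz => if_neg (fun h1 : z = x => hxA (h1 ▸ hz))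
      obtain ⟨k1, hk1, hk1A⟩ := homK' h hcl hA' (φ := φ) (by
        intro z hz w hw
        rw [Finset.mem_insert] at hz hw
        rcases hz with hz | hz <;> rcases hw with hw | hw
        · rw [hz, hw]; simp
        · rw [hz, hφx, hφA w hw, ← hrel.ge_iff hstr (hcln w hw).1 (hcln w hw).2, hk.1]
        · rw [hw, hφx, hφA z hz, ← hrel.le_iff hstr (hcln z hz).1 (hcln z hz).2, hk.1]
        · rw [hφA z hz, hφA w hw, hk.1]) (by
        intro z hz
        rw [Finset.mem_insert] at hz
        rcases hz with rfl | hz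
        · rw [hφx, ← hstr.cl_eq z, Finset.image_insert, hφx]
          rw [← hstr.cl_eq y, ← hrel.1, erase_KK hk]
          congr 1
          exact Finset.image_congr fun w hw => (hφA w (hproper hw)).symm
        · rw [hφA z hz, hk.2 z]
          exact Finset.image_congr fun w hw => (hφA w (hA z hz hw)).symm)
      obtain ⟨k', hk', hk'A, hinv⟩ := ih (insert x A) hA' (Finset.insert_subset hxE hAE) (by
        have h1 : E \ insert x A ⊂ E \ A := by
          rw [Finset.ssubset_iff_of_subset (Finset.sdiff_subset_sdiff (le_refl _)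
            (Finset.subset_insert _ _))]
          refine ⟨x, Finset.mem_sdiff.2 ⟨hxE, hxA⟩, ?_⟩
          rw [Finset.mem_sdiff]
          exact fun h2 => h2.2 (Finset.mem_insert_self _ _)
        have h2 := Finset.card_lt_card h1
        omega) k1 hk1 (by
        intro z hz
        rw [hk1A z hz]
        rw [Finset.mem_insert] at hz
        rcases hz with rfl | hz
        · rw [hφx]; exact hyE
        · rw [hφA z hz]; exact hkA z hz)
      refine ⟨k', hk', fun z hz => ?_, hinv⟩
      rw [hk'A z (Finset.mem_insert_of_mem hz), hk1A z (Finset.mem_insert_of_mem hz), hφA z hz]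
    · rw [Finset.not_nonempty_iff_eq_empty, Finset.sdiff_eq_empty_iff_subset] at hne
      exact ⟨k, hk, fun _ _ => rfl, Inv.of_forall fun x hx => hkA x (hne hx)⟩

theorem sysP {cl : Ω → Finset Ω} (h : UH Ω) (hcl : GenFam (fun _ : Unit => cl)) :
    Sys (KK cl) {C | Closed cl C} where
  closed := KK_closed (hcl.str ())
  inv := fun C hC k hk => Closed.image hC hk
  cofinal := fun D => by
    obtain ⟨C, hD, hC⟩ := hcl.lf D
    exact ⟨C, hC (), hD⟩
  eppa := by
    intro C hC
    have hstr := hcl.str ()
    obtain ⟨sel, hsel⟩ := exists_sel C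
    have hfin := eppa_finite hstr C.card sel
    have hmem : ∀ x, x ∈ hfin.toFinset ↔
        (cl x).card ≤ C.card ∧ ∀ y ∈ cl x, y ∈ sel {z | rel cl y z} := fun x =>
      hfin.mem_toFinset
    have hCE : C ⊆ hfin.toFinset := by
      intro x hx
      rw [hmem]
      refine ⟨Finset.card_le_card (hC x hx), fun y hy => ?_⟩
      exact (hsel _ (rel_infinite h hcl y)).1 y (hC x hx hy) (rel.refl cl y)
    have hEc : Closed cl hfin.toFinset := by
      intro x hx y hy
      rw [hmem] at hx ⊢
      have hs := hstr.trans x trivial y hy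
      exact ⟨(Finset.card_le_card hs).trans hx.1, fun z hz => hx.2 z (hs hz)⟩
    refine ⟨hfin.toFinset, hEc, hCE, ?_⟩
    intro A hA k hk hAC hkA
    exact eppa_step h hcl C.card (fun t ht => (hsel t ht).2) hmem _ A hA (hAC.trans hCE)
      (le_refl _) k hk (fun x hx => hCE (hkA x hx))
  amalg := by
    intro D hD A hA E hE hDA hDE
    obtain ⟨k, hk, hkD, F, hF, hAF, hkF, hall⟩ := amalgK h hcl hD hA hE hDA hDE
    exact ⟨k, hk, hkD, F, hF, hAF, hkF, hall⟩

end Pool.Agent.MP984e59
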