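import Mathlib
import Pool.Agent.MP984e59.Eppa

set_option autoImplicit false
set_option linter.unusedVariables false
set_option linter.unusedSectionVars false

/-!
# The small index property for the universal homogeneous poset, given generic pairs
-/

namespace Pool.Agent.MP984e59

open Pool.Agent.SIP Equiv Cardinal

variable {Ω : Type} [PartialOrder Ω]

/-- The embedding of the automorphism group into the permutation group. -/
def toP : (Ω ≃o Ω) →* Perm Ω where
  toFun g := g.toEquiv
  map_one' := rfl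
  map_mul' _ _ := rfl

theorem toP_inj : Function.Injective (toP (Ω := Ω)) := by
  intro g g' h
  ext x
  have : (toP g) x = (toP g') x := by rw [h]
  exact this

variable [DecidableEq Ω] [Countable Ω]

theorem sip_of_pairs (h : UH Ω)
    (hpairs : ∀ P : Finset Ω → (Ω → Finset Ω) → Prop,
      (∀ cl, GenFam (fun _ : Unit => cl) → ∃ A, P A cl) → ∃ A B : Finset Ω, A ⊆ B ∧
        ∀ g : Ω ≃o Ω, (∀ x ∈ B, g x = x) → ∃ cl cl' : Ω → Finset Ω, P A cl ∧ P A cl' ∧
          GenFam (fun _ : Unit => cl) ∧ GenFam (fun _ : Unit => cl') ∧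
          (∀ x ∈ B, cl x = cl' x ∧ cl x ⊆ B) ∧ GenFam (fun b : Bool => if b then cl else cl') ∧
          GenFam (fun b : Bool => if b then cl else act g cl'))
    (H : Subgroup (Ω ≃o Ω)) (hH : #((Ω ≃o Ω) ⧸ H) < 𝔠) :
    ∃ F : Finset Ω, ∀ g : Ω ≃o Ω, (∀ x ∈ F, g x = x) → g ∈ H := by
  haveI : Nonempty Ω := by
    obtain ⟨j⟩ := h.univ Unit
    exact ⟨j ()⟩
  obtain ⟨A, B, hAB, hB⟩ := hpairs
    (fun A cl => ∀ k ∈ KK cl, (∀ x ∈ A, k x = x) → k ∈ H.map toP) (by
    intro cl hcl
    rcases sip (sysP h hcl) (H.map toP) with ⟨D, hD⟩ | ⟨f, hf, hne⟩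
    · exact ⟨D, hD⟩
    · exfalso
      let F : (ℕ → Bool) → (Ω ≃o Ω) := fun α => ⟨f α, fun {x y} => (hf α).1 x y⟩
      have hF : ∀ α, toP (F α) = f α := fun α => rfl
      have hinj : Function.Injective (fun α => (F α : (Ω ≃o Ω) ⧸ H)) := by
        intro α β hαβ
        by_contra hn
        apply hne α β hn
        have h1 : (F α)⁻¹ * F β ∈ H := QuotientGroup.eq.1 hαβ
        refine ⟨_, h1, ?_⟩
        rw [map_mul, map_inv, hF, hF]
      have h2 := Cardinal.mk_le_of_injective hinj
      have h3 : #(ℕ → Bool) = 𝔠 := by simp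
      rw [h3] at h2
      exact absurd hH (not_lt.2 h2))
  refine ⟨B, fun g hg => ?_⟩
  obtain ⟨cl, cl', hP, hP', hcl, hcl', hag, hpair, hpair'⟩ := hB g hg
  have hgs : ∀ x ∈ B, g.symm x = x := fun x hx => by
    rw [OrderIso.symm_apply_eq, hg x hx]
  obtain ⟨k, hkB, hk⟩ := hpair.iso hpair' (C := B) (g := OrderIso.refl Ω) ⟨by
      intro i x hx
      obtain ⟨h1, h2⟩ := hag x hx
      rcases i with _ | _
      · show cl' x ⊆ B
        rw [← h1]; exact h2
      · exact h2, by
      intro i x hx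
      obtain ⟨h1, h2⟩ := hag x hx
      have h3 : ∀ s : Finset Ω, s.image (OrderIso.refl Ω) = s := fun s => by
        ext; simp
      rw [h3]
      rcases i with _ | _
      · show act g cl' x = cl' x
        unfold act
        rw [hgs x hx, ← h1]
        exact image_of_fix hg h2
      · rfl⟩
  have hk1 : ∀ x, cl (k x) = (cl x).image k := fun x => hk true x
  have hk2 : ∀ x, act g cl' (k x) = (cl' x).image k := fun x => hk false x
  have hkK : toP k ∈ KK cl := ⟨fun x y => k.le_iff_le, hk1⟩
  have hgkK : toP (g⁻¹ * k) ∈ KK cl' := by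
    refine ⟨fun x y => (g⁻¹ * k).le_iff_le, fun x => ?_⟩
    have h1 := hk2 x
    unfold act at h1
    have h2 : (cl' (g.symm (k x))) = ((cl' x).image k).image g.symm := by
      rw [← h1, Finset.image_image]
      have : (g.symm ∘ g : Ω → Ω) = id := by ext z; simp
      rw [this, Finset.image_id]
    rw [Finset.image_image] at h2
    exact h2
  have hkH : k ∈ H := by
    obtain ⟨k', hk', he⟩ := hP _ hkK (fun x hx => hkB x (hAB hx))
    rwa [toP_inj he] at hk'
  have hgkH : g⁻¹ * k ∈ H := by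
    obtain ⟨k', hk', he⟩ := hP' _ hgkK (fun x hx => by
      show g.symm (k x) = x
      rw [hkB x (hAB hx)]
      exact hgs x (hAB hx))
    rwa [toP_inj he] at hk'
  have : g = k * (g⁻¹ * k)⁻¹ := by group
  rw [this]
  exact H.mul_mem hkH (H.inv_mem hgkH)

end Pool.Agent.MP984e59
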