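import Mathlib
import Pool.Agent.MP984e59.Defs

set_option autoImplicit false
set_option linter.unusedVariables false
set_option linter.unusedSectionVars false

/-!
# Extending second orders
-/

namespace Pool.Agent.MP984e59

variable {Ω : Type} [PartialOrder Ω] [DecidableEq Ω]

/-- Extension of a second order on `F` to everything along an enumeration. -/
def extAll (ρ : Ω → ℕ) (seg : ℕ → Finset Ω) (F : Finset Ω) (s : Ω → Finset Ω) : Ω → Finset Ω :=
  fun x => if x ∈ F then s x else F ∪ seg (ρ x + 1)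

theorem extAll_of_mem {ρ : Ω → ℕ} {seg : ℕ → Finset Ω} {F : Finset Ω} {s : Ω → Finset Ω} {x : Ω}
    (hx : x ∈ F) : extAll ρ seg F s x = s x := if_pos hx

theorem extAll_of_notMem {ρ : Ω → ℕ} {seg : ℕ → Finset Ω} {F : Finset Ω} {s : Ω → Finset Ω}
    {x : Ω} (hx : x ∉ F) : extAll ρ seg F s x = F ∪ seg (ρ x + 1) := if_neg hx

theorem StrOn.congr {B : Set Ω} {s t : Ω → Finset Ω} (h : StrOn B s) (hst : ∀ x ∈ B, t x = s x) :
    StrOn B t where
  self := fun x hx => by rw [hst x hx]; exact h.self x hx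
  sub := fun x hx y hy => by rw [hst x hx] at hy; exact h.sub x hx y hy
  trans := fun x hx y hy => by
    rw [hst x hx] at hy ⊢
    rw [hst y (h.sub x hx y hy)]
    exact h.trans x hx y hy
  anti := fun x hx y hy h1 h2 => by
    rw [hst x hx] at h1
    rw [hst y hy] at h2
    exact h.anti x hx y hy h1 h2
  free := fun x hx y hy hxy => by
    rw [hst x hx, hst y hy]
    exact h.free x hx y hy hxy

/-- Restriction to a closed subset. -/
theorem StrOn.restrict {B : Set Ω} {s : Ω → Finset Ω} (h : StrOn B s) (C : Finset Ω)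
    (hC : (C : Set Ω) ⊆ B) (hcl : Closed s C) : StrOn (C : Set Ω) s where
  self := fun x hx => h.self x (hC hx)
  sub := fun x hx y hy => hcl x hx hy
  trans := fun x hx y hy => h.trans x (hC hx) y hy
  anti := fun x hx y hy => h.anti x (hC hx) y (hC hy)
  free := fun x hx y hy => h.free x (hC hx) y (hC hy)

theorem extAll_str {ρ : Ω → ℕ} {seg : ℕ → Finset Ω} (hρ : Function.Injective ρ)
    (hseg : ∀ n y, y ∈ seg n ↔ ρ y < n) {F : Finset Ω} {s : Ω → Finset Ω}
    (hs : StrOn (F : Set Ω) s) : StrOn Set.univ (extAll ρ seg F s) where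
  self := by
    intro x _
    by_cases hx : x ∈ F
    · rw [extAll_of_mem hx]; exact hs.self x hx
    · rw [extAll_of_notMem hx]
      exact Finset.mem_union_right _ ((hseg _ _).2 (Nat.lt_succ_self _))
  sub := fun _ _ _ _ => trivial
  trans := by
    intro x _ y hy
    by_cases hx : x ∈ F
    · rw [extAll_of_mem hx] at hy ⊢
      have hyF : y ∈ F := hs.sub x hx y hy
      rw [extAll_of_mem hyF]
      exact hs.trans x hx y hy
    · rw [extAll_of_notMem hx] at hy ⊢
      by_cases hyF : y ∈ F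
      · rw [extAll_of_mem hyF]
        intro z hz
        exact Finset.mem_union_left _ (hs.sub y hyF z hz)
      · rw [extAll_of_notMem hyF]
        have h1 : ρ y < ρ x + 1 := (hseg _ _).1 ((Finset.mem_union.1 hy).resolve_left hyF)
        intro z hz
        rcases Finset.mem_union.1 hz with hz | hz
        · exact Finset.mem_union_left _ hz
        · refine Finset.mem_union_right _ ((hseg _ _).2 ?_)
          have := (hseg _ _).1 hz
          omega
  anti := by
    intro x _ y _ hyx hxy
    by_cases hx : x ∈ F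
    · rw [extAll_of_mem hx] at hyx
      have hy : y ∈ F := hs.sub x hx y hyx
      rw [extAll_of_mem hy] at hxy
      exact hs.anti x hx y hy hyx hxy
    · by_cases hy : y ∈ F
      · rw [extAll_of_mem hy] at hxy
        exact absurd (hs.sub y hy x hxy) hx
      · rw [extAll_of_notMem hx] at hyx
        rw [extAll_of_notMem hy] at hxy
        have h1 : ρ y < ρ x + 1 := (hseg _ _).1 ((Finset.mem_union.1 hyx).resolve_left hy)
        have h2 : ρ x < ρ y + 1 := (hseg _ _).1 ((Finset.mem_union.1 hxy).resolve_left hx)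
        exact hρ (by omega)
  free := by
    intro x _ y _ hxy
    have hself : ∀ z, z ∈ extAll ρ seg F s z := by
      intro z
      by_cases hz : z ∈ F
      · rw [extAll_of_mem hz]; exact hs.self z hz
      · rw [extAll_of_notMem hz]
        exact Finset.mem_union_right _ ((hseg _ _).2 (Nat.lt_succ_self _))
    by_cases hx : x ∈ F
    · by_cases hy : y ∈ F
      · rw [extAll_of_mem hx, extAll_of_mem hy]
        exact hs.free x hx y hy hxy
      · exact ⟨x, hself x, by rw [extAll_of_notMem hy]; exact Finset.mem_union_left _ hx,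
          le_refl x, hxy⟩
    · by_cases hy : y ∈ F
      · exact ⟨y, by rw [extAll_of_notMem hx]; exact Finset.mem_union_left _ hy, hself y,
          hxy, le_refl y⟩
      · rcases le_total (ρ x) (ρ y) with h1 | h1
        · exact ⟨x, hself x, by
            rw [extAll_of_notMem hy]
            exact Finset.mem_union_right _ ((hseg _ _).2 (by omega)), le_refl x, hxy⟩
        · exact ⟨y, by
            rw [extAll_of_notMem hx]
            exact Finset.mem_union_right _ ((hseg _ _).2 (by omega)), hself y, hxy, le_refl y⟩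

theorem extAll_closed {ρ : Ω → ℕ} {seg : ℕ → Finset Ω}
    (hseg : ∀ n y, y ∈ seg n ↔ ρ y < n) {F : Finset Ω} {s : Ω → Finset Ω}
    (hs : StrOn (F : Set Ω) s) {N : ℕ} (hF : F ⊆ seg N) : Closed (extAll ρ seg F s) (seg N) := by
  intro x hx
  by_cases hxF : x ∈ F
  · rw [extAll_of_mem hxF]
    intro y hy
    exact hF (hs.sub x hxF y hy)
  · rw [extAll_of_notMem hxF]
    intro y hy
    rcases Finset.mem_union.1 hy with hy | hy
    · exact hF hy
    · have h1 := (hseg _ _).1 hy
      have h2 := (hseg _ _).1 hx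
      exact (hseg _ _).2 (by omega)

/-- The union of a second order on `C` and a transported second order on `g E`. -/
def glue (C : Finset Ω) (c σ : Ω → Finset Ω) (g : Ω ≃o Ω) : Ω → Finset Ω :=
  fun x => if x ∈ C then c x else (σ (g.symm x)).image g

theorem glue_of_mem {C : Finset Ω} {c σ : Ω → Finset Ω} {g : Ω ≃o Ω} {x : Ω} (hx : x ∈ C) :
    glue C c σ g x = c x := if_pos hx

section Glue

variable {C D E : Finset Ω} {c σ : Ω → Finset Ω} {g : Ω ≃o Ω}

theorem glue_app (hg : FreePos D C E g) (hσ : StrOn (E : Set Ω) σ) (hcσ : ∀ x ∈ D, c x = σ x)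
    (hD : Closed c D) {x : Ω} (hx : x ∈ E) : glue C c σ g (g x) = (σ x).image g := by
  by_cases h1 : g x ∈ C
  · have hxD : x ∈ D := hg.disj x hx h1
    rw [glue_of_mem h1, hg.fix x hxD, hcσ x hxD]
    have h2 : ∀ y ∈ σ x, g y = y := fun y hy => hg.fix y (hD x hxD (by rw [hcσ x hxD]; exact hy))
    ext y
    rw [Finset.mem_image]
    constructor
    · intro hy; exact ⟨y, hy, h2 y hy⟩
    · rintro ⟨z, hz, rfl⟩; rw [h2 z hz]; exact hz
  · rw [glue, if_neg h1, OrderIso.symm_apply_apply]

theorem glue_str (hc : StrOn Set.univ c) (hC : Closed c C) (hDC : D ⊆ C) (hD : Closed c D)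
    (hDE : D ⊆ E) (hg : FreePos D C E g) (hσ : StrOn (E : Set Ω) σ)
    (hcσ : ∀ x ∈ D, c x = σ x) :
    StrOn ((C ∪ E.image g : Finset Ω) : Set Ω) (glue C c σ g) := by
  have hmem : ∀ x, x ∈ ((C ∪ E.image g : Finset Ω) : Set Ω) ↔ x ∈ C ∨ ∃ a ∈ E, g a = x := by
    intro x
    rw [Finset.mem_coe, Finset.mem_union, Finset.mem_image]
  have happ : ∀ x ∈ E, glue C c σ g (g x) = (σ x).image g := fun x hx =>
    glue_app hg hσ hcσ hD hx
  refine ⟨?_, ?_, ?_, ?_, ?_⟩
  · intro x hx
    rcases (hmem x).1 hx with hx | ⟨a, ha, rfl⟩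
    · rw [glue_of_mem hx]; exact hc.self x trivial
    · rw [happ a ha]; exact Finset.mem_image_of_mem _ (hσ.self a ha)
  · intro x hx y hy
    rw [hmem]
    rcases (hmem x).1 hx with hx | ⟨a, ha, rfl⟩
    · rw [glue_of_mem hx] at hy; exact Or.inl (hC x hx hy)
    · rw [happ a ha] at hy
      obtain ⟨b, hb, rfl⟩ := Finset.mem_image.1 hy
      exact Or.inr ⟨b, hσ.sub a ha b hb, rfl⟩
  · intro x hx y hy
    rcases (hmem x).1 hx with hx | ⟨a, ha, rfl⟩
    · rw [glue_of_mem hx] at hy ⊢
      rw [glue_of_mem (hC x hx hy)]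
      exact hc.trans x trivial y hy
    · rw [happ a ha] at hy ⊢
      obtain ⟨b, hb, rfl⟩ := Finset.mem_image.1 hy
      rw [happ b (hσ.sub a ha b hb)]
      exact Finset.image_subset_image (hσ.trans a ha b hb)
  · intro x hx y hy hyx hxy
    rcases (hmem x).1 hx with hx | ⟨a, ha, rfl⟩
    · rw [glue_of_mem hx] at hyx
      have hyC := hC x hx hyx
      rw [glue_of_mem hyC] at hxy
      exact hc.anti x trivial y trivial hyx hxy
    · rw [happ a ha] at hyx
      obtain ⟨b, hb, rfl⟩ := Finset.mem_image.1 hyx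
      have hbE := hσ.sub a ha b hb
      rw [happ b hbE] at hxy
      obtain ⟨a', ha', hga⟩ := Finset.mem_image.1 hxy
      have := g.injective hga
      subst this
      rw [hσ.anti a' ha b hbE hb ha']
  · intro x hx y hy hxy
    rcases (hmem x).1 hx with hx | ⟨a, ha, rfl⟩
    · rcases (hmem y).1 hy with hy | ⟨b, hb, rfl⟩
      · rw [glue_of_mem hx, glue_of_mem hy]
        exact hc.free x trivial y trivial hxy
      · obtain ⟨z, hzD, h1, h2⟩ := hg.le x hx b hb hxy
        obtain ⟨w, h3, h4, h5, h6⟩ := hc.free x trivial z trivial h1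
        have hwD : w ∈ D := hD z hzD h4
        have hwb : w ≤ b := by
          have h7 : g w ≤ g b := by rw [hg.fix w hwD]; exact h6.trans h2
          exact g.le_iff_le.1 h7
        obtain ⟨v, h7, h8, h9, h10⟩ := hσ.free w (hDE hwD) b hb hwb
        rw [← hcσ w hwD] at h7
        have hvD : v ∈ D := hD w hwD h7
        refine ⟨v, ?_, ?_, h5.trans h9, ?_⟩
        · rw [glue_of_mem hx]; exact hc.trans x trivial w h3 h7
        · rw [happ b hb, Finset.mem_image]
          exact ⟨v, h8, hg.fix v hvD⟩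
        · have h11 : g v ≤ g b := g.le_iff_le.2 h10
          rwa [hg.fix v hvD] at h11
    · rcases (hmem y).1 hy with hy | ⟨b, hb, rfl⟩
      · obtain ⟨z, hzD, h1, h2⟩ := hg.ge y hy a ha hxy
        obtain ⟨w, h3, h4, h5, h6⟩ := hc.free z trivial y trivial h2
        have hwD : w ∈ D := hD z hzD h3
        have haw : a ≤ w := by
          have h7 : g a ≤ g w := by rw [hg.fix w hwD]; exact h1.trans h5
          exact g.le_iff_le.1 h7
        obtain ⟨v, h7, h8, h9, h10⟩ := hσ.free a ha w (hDE hwD) haw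
        rw [← hcσ w hwD] at h8
        have hvD : v ∈ D := hD w hwD h8
        refine ⟨v, ?_, ?_, ?_, h10.trans h6⟩
        · rw [happ a ha, Finset.mem_image]
          exact ⟨v, h7, hg.fix v hvD⟩
        · rw [glue_of_mem hy]; exact hc.trans y trivial w h4 h8
        · have h11 : g a ≤ g v := g.le_iff_le.2 h9
          rwa [hg.fix v hvD] at h11
      · rw [happ a ha, happ b hb]
        obtain ⟨z, h1, h2, h3, h4⟩ := hσ.free a ha b hb (g.le_iff_le.1 hxy)
        exact ⟨g z, Finset.mem_image_of_mem _ h1, Finset.mem_image_of_mem _ h2,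
          g.le_iff_le.2 h3, g.le_iff_le.2 h4⟩

end Glue

/-- Closing up finitely many second orders simultaneously. -/
theorem closeUp [Countable Ω] {I : Type} [Finite I] (c : I → Ω → Finset Ω)
    (hc : ∀ i, StrOn Set.univ (c i)) (F : Finset Ω) :
    ∃ (c' : I → Ω → Finset Ω) (C : Finset Ω), (∀ i, StrOn Set.univ (c' i)) ∧ F ⊆ C ∧
      (∀ i, Closed (c' i) C) ∧ ∀ i, ∀ x ∈ F, c' i x = c i x := by
  classical
  cases nonempty_fintype I
  obtain ⟨ρ, hρ⟩ := exists_injective_nat Ω
  have hfin : ∀ n, {y : Ω | ρ y < n}.Finite := by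
    intro n
    exact (Set.finite_lt_nat n).preimage hρ.injOn
  set seg : ℕ → Finset Ω := fun n => (hfin n).toFinset with hsegdef
  have hseg : ∀ n y, y ∈ seg n ↔ ρ y < n := by
    intro n y
    rw [hsegdef]
    simp
  set G : I → Finset Ω := fun i => F.biUnion (c i) with hG
  have hFG : ∀ i, F ⊆ G i := fun i x hx =>
    Finset.mem_biUnion.2 ⟨x, hx, (hc i).self x trivial⟩
  have hGcl : ∀ i, Closed (c i) (G i) := by
    intro i x hx y hy
    obtain ⟨z, hz, hxz⟩ := Finset.mem_biUnion.1 hx
    exact Finset.mem_biUnion.2 ⟨z, hz, (hc i).trans z trivial x hxz hy⟩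
  have hGstr : ∀ i, StrOn (G i : Set Ω) (c i) := fun i =>
    (hc i).restrict (G i) (Set.subset_univ _) (hGcl i)
  set K : Finset Ω := Finset.univ.biUnion G ∪ F with hK
  set N : ℕ := K.sup ρ + 1 with hN
  have hKN : K ⊆ seg N := by
    intro x hx
    rw [hseg]
    have : ρ x ≤ K.sup ρ := Finset.le_sup hx
    omega
  refine ⟨fun i => extAll ρ seg (G i) (c i), seg N, fun i => extAll_str hρ hseg (hGstr i),
    Finset.subset_union_right.trans hKN, fun i => ?_, fun i x hx => extAll_of_mem (hFG i hx)⟩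
  apply extAll_closed hseg (hGstr i)
  intro x hx
  exact hKN (Finset.mem_union_left _ (Finset.mem_biUnion.2 ⟨i, Finset.mem_univ i, hx⟩))

/-- Extending structures on a finite set to everything. -/
theorem extend_all [Countable Ω] (F : Finset Ω) (s : Ω → Finset Ω) (hs : StrOn (F : Set Ω) s) :
    ∃ c : Ω → Finset Ω, StrOn Set.univ c ∧ ∀ x ∈ F, c x = s x := by
  obtain ⟨ρ, hρ⟩ := exists_injective_nat Ω
  have hfin : ∀ n, {y : Ω | ρ y < n}.Finite := by
    intro n
    exact (Set.finite_lt_nat n).preimage hρ.injOn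
  have hseg : ∀ n y, y ∈ (hfin n).toFinset ↔ ρ y < n := by
    intro n y
    simp
  exact ⟨extAll ρ (fun n => (hfin n).toFinset) F s, extAll_str hρ hseg hs,
    fun x hx => extAll_of_mem hx⟩

/-- Density of the extension tasks. -/
theorem task_dense [Countable Ω] (h : UH Ω) {I : Type} [Finite I] (c : I → Ω → Finset Ω)
    (hc : ∀ i, StrOn Set.univ (c i)) (F : Finset Ω) (D E : Finset Ω) (σ : I → Ω → Finset Ω)
    (hDE : D ⊆ E) (hσ : ∀ i, StrOn (E : Set Ω) (σ i)) (hcσ : ∀ i, ∀ x ∈ D, c i x = σ i x)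
    (hD : ∀ i, Closed (c i) D) :
    ∃ (c' : I → Ω → Finset Ω) (g : Ω ≃o Ω), (∀ i, StrOn Set.univ (c' i)) ∧
      (∀ i, ∀ x ∈ F, c' i x = c i x) ∧ (∀ x ∈ D, g x = x) ∧
      ∀ i, ∀ x ∈ E, c' i (g x) = (σ i x).image g := by
  obtain ⟨c1, C, h1, h2, h3, h4⟩ := closeUp c hc (F ∪ D)
  have hDC : D ⊆ C := Finset.subset_union_right.trans h2
  have hFC : F ⊆ C := Finset.subset_union_left.trans h2
  have h4D : ∀ i, ∀ x ∈ D, c1 i x = c i x := fun i x hx => h4 i x (Finset.mem_union_right _ hx)
  have hD1 : ∀ i, Closed (c1 i) D := fun i x hx => by rw [h4D i x hx]; exact hD i x hx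
  obtain ⟨g, hg⟩ := h.free' hDC hDE
  have hc1σ : ∀ i, ∀ x ∈ D, c1 i x = σ i x := fun i x hx => by rw [h4D i x hx, hcσ i x hx]
  have hstr : ∀ i, StrOn ((C ∪ E.image g : Finset Ω) : Set Ω) (glue C (c1 i) (σ i) g) :=
    fun i => glue_str (h1 i) (h3 i) hDC (hD1 i) hDE hg (hσ i) (hc1σ i)
  choose c' h5 h6 using fun i => extend_all _ _ (hstr i)
  refine ⟨c', g, h5, ?_, hg.fix, ?_⟩
  · intro i x hx
    rw [h6 i x (Finset.mem_union_left _ (hFC hx)), glue_of_mem (hFC hx),
      h4 i x (Finset.mem_union_left _ hx)]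
  · intro i x hx
    rw [h6 i (g x) (Finset.mem_union_right _ (Finset.mem_image_of_mem _ hx)),
      glue_app hg (hσ i) (hc1σ i) (hD1 i) hx]

theorem act_str {c : Ω → Finset Ω} (hc : StrOn Set.univ c) (g : Ω ≃o Ω) :
    StrOn Set.univ (act g c) where
  self := fun x _ => Finset.mem_image.2 ⟨g.symm x, hc.self _ trivial, g.apply_symm_apply x⟩
  sub := fun _ _ _ _ => trivial
  trans := by
    intro x _ y hy
    obtain ⟨z, hz, rfl⟩ := Finset.mem_image.1 hy
    simp only [act, OrderIso.symm_apply_apply]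
    exact Finset.image_subset_image (hc.trans _ trivial z hz)
  anti := by
    intro x _ y _ h1 h2
    obtain ⟨z, hz, rfl⟩ := Finset.mem_image.1 h1
    obtain ⟨w, hw, rfl⟩ := Finset.mem_image.1 h2
    simp only [OrderIso.symm_apply_apply] at hz hw
    rw [hc.anti w trivial z trivial hz hw]
  free := by
    intro x _ y _ hxy
    obtain ⟨z, h1, h2, h3, h4⟩ := hc.free (g.symm x) trivial (g.symm y) trivial
      (g.symm.le_iff_le.2 hxy)
    refine ⟨g z, Finset.mem_image_of_mem _ h1, Finset.mem_image_of_mem _ h2, ?_, ?_⟩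
    · have := g.le_iff_le.2 h3
      rwa [OrderIso.apply_symm_apply] at this
    · have := g.le_iff_le.2 h4
      rwa [OrderIso.apply_symm_apply] at this

end Pool.Agent.MP984e59
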