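import Mathlib
import Pool.Agent.MP984e59.PairsComb

set_option autoImplicit false
set_option linter.unusedVariables false
set_option linter.unusedSectionVars false

/-!
# Generic pairs of second orders
-/

namespace Pool.Agent.MP984e59

open Filter Topology

/-- One half of the Kuratowski-Ulam theorem. -/
theorem kuratowski_ulam {X Y : Type*} [TopologicalSpace X] [TopologicalSpace Y]
    [SecondCountableTopology Y] {R : Set (X × Y)} (hR : R ∈ residual (X × Y)) :
    ∀ᶠ x in residual X, {y | (x, y) ∈ R} ∈ residual Y := by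
  obtain ⟨S, ho, hd, hc, hsub⟩ := mem_residual_iff.1 hR
  have key : ∀ O ∈ S, ∀ᶠ x in residual X, {y | (x, y) ∈ O} ∈ residual Y := by
    intro O hO
    obtain ⟨b, hbc, hbe, hb⟩ := TopologicalSpace.exists_countable_basis Y
    have h1 : ∀ V ∈ b, ∀ᶠ x in residual X, ∃ y ∈ V, (x, y) ∈ O := by
      intro V hV
      have hVo : IsOpen V := hb.isOpen hV
      have hVne : V.Nonempty := by
        rw [Set.nonempty_iff_ne_empty]
        rintro rfl
        exact hbe hV
      have heq : {x | ∃ y ∈ V, (x, y) ∈ O} = Prod.fst '' (O ∩ Set.univ ×ˢ V) := by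
        ext x
        simp only [Set.mem_ofPred_eq, Set.mem_image, Set.mem_inter_iff, Set.mem_prod,
          Set.mem_univ, true_and, Prod.exists, exists_and_right, exists_eq_right]
        constructor
        · rintro ⟨y, h1, h2⟩; exact ⟨y, h2, h1⟩
        · rintro ⟨y, h1, h2⟩; exact ⟨y, h2, h1⟩
      have hopen : IsOpen {x | ∃ y ∈ V, (x, y) ∈ O} := by
        rw [heq]
        exact isOpenMap_fst _ ((ho O hO).inter (isOpen_univ.prod hVo))
      refine residual_of_dense_open hopen ?_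
      rw [dense_iff_inter_open]
      intro U hU hUne
      obtain ⟨⟨x, y⟩, h2, h3⟩ := dense_iff_inter_open.1 (hd O hO) (U ×ˢ V) (hU.prod hVo)
        (hUne.prod hVne)
      exact ⟨x, h2.1, y, h2.2, h3⟩
    have h2 : ∀ᶠ x in residual X, ∀ V ∈ b, ∃ y ∈ V, (x, y) ∈ O :=
      (eventually_countable_ball hbc).2 h1
    refine h2.mono fun x hx => ?_
    refine residual_of_dense_open ((ho O hO).preimage (Continuous.prodMk_right x)) ?_
    rw [hb.dense_iff]
    intro V hV _
    obtain ⟨y, h3, h4⟩ := hx V hV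
    exact ⟨y, h3, h4⟩
  have h1 : ∀ᶠ x in residual X, ∀ O ∈ S, {y | (x, y) ∈ O} ∈ residual Y :=
    (eventually_countable_ball hc).2 key
  refine h1.mono fun x hx => ?_
  have h2 : ⋂₀ ((fun O : Set (X × Y) => {y | (x, y) ∈ O}) '' S) ∈ residual Y := by
    rw [countable_sInter_mem (hc.image _)]
    rintro _ ⟨O, hO, rfl⟩
    exact hx O hO
  refine mem_of_superset h2 ?_
  intro y hy
  apply hsub
  intro O hO
  exact hy _ ⟨O, hO, rfl⟩

variable {Ω : Type} [PartialOrder Ω] [DecidableEq Ω]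

/-- A space representing families of second orders. -/
structure Rep {I : Type} (Z : Type) [TopologicalSpace Z] (st : Z → I → Ω → Finset Ω) : Prop where
  str : ∀ z i, StrOn Set.univ (st z i)
  op : ∀ (z : Z) (F : Finset Ω), {z' | ∀ i, ∀ x ∈ F, st z' i x = st z i x} ∈ 𝓝 z
  nh : ∀ (z : Z), ∀ U ∈ 𝓝 z, ∃ F : Finset Ω, ∀ z', (∀ i, ∀ x ∈ F, st z' i x = st z i x) → z' ∈ U
  surj : ∀ c : I → Ω → Finset Ω, (∀ i, StrOn Set.univ (c i)) → ∃ z, st z = c

theorem Rep.residual {I : Type} {Z : Type} [TopologicalSpace Z] {st : Z → I → Ω → Finset Ω}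
    (hZ : Rep Z st) (T : Z → Prop)
    (hT : ∀ (z : Z) (F0 : Finset Ω), ∃ (z' : Z) (F : Finset Ω),
      (∀ i, ∀ x ∈ F0, st z' i x = st z i x) ∧
      ∀ z'', (∀ i, ∀ x ∈ F, st z'' i x = st z' i x) → T z'') :
    ∀ᶠ z in residual Z, T z := by
  set O : Set Z := {z | ∃ F : Finset Ω, ∀ z'', (∀ i, ∀ x ∈ F, st z'' i x = st z i x) → T z''}
    with hO
  have h1 : IsOpen O := by
    rw [isOpen_iff_mem_nhds]
    rintro z ⟨F, hF⟩
    refine mem_of_superset (hZ.op z F) ?_
    intro z' hz'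
    refine ⟨F, fun z'' hz'' => hF z'' fun i x hx => ?_⟩
    rw [hz'' i x hx, hz' i x hx]
  have h2 : Dense O := by
    rw [dense_iff_inter_open]
    rintro U hU ⟨z, hz⟩
    obtain ⟨F0, hF0⟩ := hZ.nh z U (hU.mem_nhds hz)
    obtain ⟨z', F, h3, h4⟩ := hT z F0
    exact ⟨z', hF0 z' h3, F, h4⟩
  refine mem_of_superset (residual_of_dense_open h1 h2) ?_
  rintro z ⟨F, hF⟩
  exact hF z fun _ _ _ => rfl

/-- Generic families form a residual set. -/
theorem Rep.genFam [Countable Ω] (h : UH Ω) {I : Type} [Finite I] {Z : Type}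
    [TopologicalSpace Z] {st : Z → I → Ω → Finset Ω} (hZ : Rep Z st) :
    ∀ᶠ z in _root_.residual Z, GenFam (st z) := by
  classical
  have h1 : ∀ᶠ z in _root_.residual Z, ∀ D : Finset Ω, ∃ C : Finset Ω, D ⊆ C ∧
      ∀ i, Closed (st z i) C := by
    rw [eventually_countable_forall]
    intro D
    refine hZ.residual _ ?_
    intro z F0
    obtain ⟨c', C, h2, h3, h4, h5⟩ := closeUp (st z) (hZ.str z) (F0 ∪ D)
    obtain ⟨z', rfl⟩ := hZ.surj c' h2
    refine ⟨z', C, fun i x hx => h5 i x (Finset.mem_union_left _ hx), fun z'' hz'' =>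
      ⟨C, Finset.subset_union_right.trans h3, fun i x hx => ?_⟩⟩
    rw [hz'' i x hx]
    exact h4 i x hx
  have h2 : ∀ᶠ z in _root_.residual Z, ∀ D E : Finset Ω, ∀ τ : I → E → Finset Ω,
      D ⊆ E → (∀ i, StrOn (E : Set Ω) (fun x => if hx : x ∈ E then τ i ⟨x, hx⟩ else ∅)) →
      (∀ i, ∀ x ∈ D, st z i x = if hx : x ∈ E then τ i ⟨x, hx⟩ else ∅) →
      (∀ i, Closed (st z i) D) →
      ∃ g : Ω ≃o Ω, (∀ x ∈ D, g x = x) ∧
        ∀ i, ∀ x ∈ E, st z i (g x) = (if hx : x ∈ E then τ i ⟨x, hx⟩ else ∅).image g := by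
    rw [eventually_countable_forall]
    intro D
    rw [eventually_countable_forall]
    intro E
    rw [eventually_countable_forall]
    intro τ
    refine hZ.residual _ ?_
    intro z F0
    set σ : I → Ω → Finset Ω := fun i x => if hx : x ∈ E then τ i ⟨x, hx⟩ else ∅ with hσ
    by_cases hyp : D ⊆ E ∧ (∀ i, StrOn (E : Set Ω) (σ i)) ∧ (∀ i, ∀ x ∈ D, st z i x = σ i x) ∧
        (∀ i, Closed (st z i) D)
    · obtain ⟨hDE, hσs, hcσ, hD⟩ := hyp
      obtain ⟨c', g, h3, h4, h5, h6⟩ := task_dense h (st z) (hZ.str z) F0 D E σ hDE hσs hcσ hD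
      obtain ⟨z', rfl⟩ := hZ.surj c' h3
      refine ⟨z', E.image g, h4, fun z'' hz'' _ _ _ _ => ⟨g, h5, fun i x hx => ?_⟩⟩
      rw [hz'' i (g x) (Finset.mem_image_of_mem _ hx), h6 i x hx]
    · refine ⟨z, D, fun _ _ _ => rfl, ?_⟩
      intro z'' hz'' h3 h4 h5 h6
      exfalso
      apply hyp
      refine ⟨h3, h4, fun i x hx => ?_, fun i x hx => ?_⟩
      · rw [← hz'' i x hx]; exact h5 i x hx
      · rw [← hz'' i x hx]; exact h6 i x hx
  filter_upwards [h1, h2] with z h3 h4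
  refine ⟨hZ.str z, h3, ?_⟩
  intro D E σ hDE hσ hcσ hD
  have hσE : ∀ i, ∀ x ∈ E, (if hx : x ∈ E then σ i x else ∅) = σ i x := by
    intro i x hx
    rw [dif_pos hx]
  obtain ⟨g, h5, h6⟩ := h4 D E (fun i x => σ i x.1) hDE
    (fun i => (hσ i).congr fun x hx => hσE i x hx)
    (fun i x hx => by rw [hcσ i x hx]; exact (hσE i x (hDE hx)).symm) hD
  refine ⟨g, h5, fun i x hx => ?_⟩
  rw [h6 i x hx]
  congr 1
  exact hσE i x hx

/-- The space of second orders. -/
def Str (Ω : Type) [PartialOrder Ω] [DecidableEq Ω] : Type :=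
  {cl : Ω → Finset Ω // StrOn Set.univ cl}

section Top

local instance : TopologicalSpace (Finset Ω) := ⊥

local instance : DiscreteTopology (Finset Ω) := ⟨rfl⟩

local instance : TopologicalSpace (Str Ω) :=
  inferInstanceAs (TopologicalSpace {cl : Ω → Finset Ω // StrOn Set.univ cl})

theorem continuous_coord (x : Ω) : Continuous (fun z : Str Ω => z.1 x) :=
  (continuous_apply x).comp continuous_subtype_val

theorem isClosed_str : IsClosed {cl : Ω → Finset Ω | StrOn Set.univ cl} := by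
  have heq : {cl : Ω → Finset Ω | StrOn Set.univ cl} =
      (⋂ x : Ω, {cl | x ∈ cl x}) ∩ (⋂ x : Ω, ⋂ y : Ω, {cl | y ∈ cl x → cl y ⊆ cl x}) ∩
      (⋂ x : Ω, ⋂ y : Ω, {cl | y ∈ cl x → x ∈ cl y → x = y}) ∩
      (⋂ x : Ω, ⋂ y : Ω, {cl | x ≤ y → ∃ z, z ∈ cl x ∧ z ∈ cl y ∧ x ≤ z ∧ z ≤ y}) := by
    ext cl
    simp only [Set.mem_ofPred_eq, Set.mem_inter_iff, Set.mem_iInter]
    constructor
    · intro h
      exact ⟨⟨⟨fun x => h.self x trivial, fun x y => h.trans x trivial y⟩,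
        fun x y => h.anti x trivial y trivial⟩, fun x y => h.free x trivial y trivial⟩
    · rintro ⟨⟨⟨h1, h2⟩, h3⟩, h4⟩
      exact ⟨fun x _ => h1 x, fun _ _ _ _ => trivial, fun x _ y => h2 x y,
        fun x _ y _ => h3 x y, fun x _ y _ => h4 x y⟩
  have h1 : ∀ (x : Ω) (S : Set (Finset Ω)), IsClosed {cl : Ω → Finset Ω | cl x ∈ S} := fun x S =>
    (isClosed_discrete S).preimage (continuous_apply x)
  have h2 : ∀ (x y : Ω) (S : Set (Finset Ω × Finset Ω)),
      IsClosed {cl : Ω → Finset Ω | (cl x, cl y) ∈ S} := fun x y S =>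
    (isClosed_discrete S).preimage ((continuous_apply x).prodMk (continuous_apply y))
  rw [heq]
  refine ((IsClosed.inter ?_ ?_).inter ?_).inter ?_
  · exact isClosed_iInter fun x => h1 x {s | x ∈ s}
  · exact isClosed_iInter fun x => isClosed_iInter fun y => h2 x y {s | y ∈ s.1 → s.2 ⊆ s.1}
  · exact isClosed_iInter fun x => isClosed_iInter fun y =>
      h2 x y {s | y ∈ s.1 → x ∈ s.2 → x = y}
  · exact isClosed_iInter fun x => isClosed_iInter fun y =>
      h2 x y {s | x ≤ y → ∃ z, z ∈ s.1 ∧ z ∈ s.2 ∧ x ≤ z ∧ z ≤ y}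

theorem baire_str [Countable Ω] : BaireSpace (Str Ω) := by
  have h1 : TopologicalSpace.IsCompletelyMetrizableSpace (Str Ω) :=
    (isClosed_str (Ω := Ω)).isCompletelyMetrizableSpace
  infer_instance

theorem second_str [Countable Ω] : SecondCountableTopology (Str Ω) := by
  exact TopologicalSpace.Subtype.secondCountableTopology {cl : Ω → Finset Ω | StrOn Set.univ cl}

theorem nhds_str (z : Str Ω) (U : Set (Str Ω)) (hU : U ∈ 𝓝 z) :
    ∃ F : Finset Ω, ∀ z' : Str Ω, (∀ x ∈ F, z'.1 x = z.1 x) → z' ∈ U := by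
  have hU' : U ∈ Filter.comap (Subtype.val : {cl : Ω → Finset Ω // StrOn Set.univ cl} → _)
      (𝓝 z.1) := by
    rw [← nhds_subtype_eq_comap]
    exact hU
  obtain ⟨V, hV, hVU⟩ := Filter.mem_comap.1 hU'
  obtain ⟨V', hV'V, hV'o, hzV'⟩ := mem_nhds_iff.1 hV
  obtain ⟨F, u, hu, hsub⟩ := isOpen_pi_iff.1 hV'o z.1 hzV'
  refine ⟨F, fun z' hz' => hVU (hV'V (hsub ?_))⟩
  intro x hx
  have h1 := (hu x hx).2
  rw [← hz' x hx] at h1
  exact h1

theorem open_str (z : Str Ω) (F : Finset Ω) : {z' : Str Ω | ∀ x ∈ F, z'.1 x = z.1 x} ∈ 𝓝 z := by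
  have h1 : IsOpen (⋂ x ∈ F, {z' : Str Ω | z'.1 x = z.1 x}) := by
    refine isOpen_biInter_finset fun x _ => ?_
    exact (isOpen_discrete {z.1 x}).preimage (continuous_coord x)
  refine mem_of_superset (h1.mem_nhds ?_) ?_
  · simp
  · intro z' hz' x hx
    simp only [Set.mem_iInter] at hz'
    exact hz' x hx

theorem rep_one : Rep (Ω := Ω) (I := Unit) (Str Ω) (fun z _ => z.1) where
  str := fun z _ => z.2
  op := fun z F => mem_of_superset (open_str z F) fun z' hz' i x hx => hz' x hx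
  nh := fun z U hU => by
    obtain ⟨F, hF⟩ := nhds_str z U hU
    exact ⟨F, fun z' hz' => hF z' (hz' ())⟩
  surj := fun c hc => ⟨⟨c (), hc ()⟩, by ext1 i; rfl⟩

theorem rep_two : Rep (Ω := Ω) (I := Bool) (Str Ω × Str Ω)
    (fun z b => if b then z.1.1 else z.2.1) where
  str := fun z b => by
    cases b
    · exact z.2.2
    · exact z.1.2
  op := fun z F => by
    rw [nhds_prod_eq]
    refine mem_of_superset (Filter.prod_mem_prod (open_str z.1 F) (open_str z.2 F)) ?_
    rintro z' ⟨h1, h2⟩ b x hx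
    cases b
    · exact h2 x hx
    · exact h1 x hx
  nh := fun z U hU => by
    rw [nhds_prod_eq, Filter.mem_prod_iff] at hU
    obtain ⟨U1, hU1, U2, hU2, hsub⟩ := hU
    obtain ⟨F1, hF1⟩ := nhds_str z.1 U1 hU1
    obtain ⟨F2, hF2⟩ := nhds_str z.2 U2 hU2
    refine ⟨F1 ∪ F2, fun z' hz' => hsub ⟨hF1 z'.1 ?_, hF2 z'.2 ?_⟩⟩
    · intro x hx
      exact hz' true x (Finset.mem_union_left _ hx)
    · intro x hx
      exact hz' false x (Finset.mem_union_right _ hx)
  surj := fun c hc => ⟨(⟨c true, hc true⟩, ⟨c false, hc false⟩), by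
    ext1 b; cases b <;> rfl⟩

theorem rep_act (g : Ω ≃o Ω) : Rep (Ω := Ω) (I := Bool) (Str Ω × Str Ω)
    (fun z b => if b then z.1.1 else act g z.2.1) where
  str := fun z b => by
    cases b
    · exact act_str z.2.2 g
    · exact z.1.2
  op := fun z F => by
    rw [nhds_prod_eq]
    refine mem_of_superset (Filter.prod_mem_prod (open_str z.1 F)
      (open_str z.2 (F.image g.symm))) ?_
    rintro z' ⟨h1, h2⟩ b x hx
    cases b
    · show act g z'.2.1 x = act g z.2.1 x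
      simp only [act]
      rw [h2 (g.symm x) (Finset.mem_image_of_mem _ hx)]
    · exact h1 x hx
  nh := fun z U hU => by
    rw [nhds_prod_eq, Filter.mem_prod_iff] at hU
    obtain ⟨U1, hU1, U2, hU2, hsub⟩ := hU
    obtain ⟨F1, hF1⟩ := nhds_str z.1 U1 hU1
    obtain ⟨F2, hF2⟩ := nhds_str z.2 U2 hU2
    refine ⟨F1 ∪ F2.image g, fun z' hz' => hsub ⟨hF1 z'.1 ?_, hF2 z'.2 ?_⟩⟩
    · intro x hx
      exact hz' true x (Finset.mem_union_left _ hx)
    · intro x hx
      have h1 : act g z'.2.1 (g x) = act g z.2.1 (g x) :=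
        hz' false (g x) (Finset.mem_union_right _ (Finset.mem_image_of_mem _ hx))
      simp only [act, OrderIso.symm_apply_apply] at h1
      exact Finset.image_injective g.injective h1
  surj := fun c hc => ⟨(⟨c true, hc true⟩, ⟨act g.symm (c false), act_str (hc false) g.symm⟩), by
    ext1 b
    cases b
    · show act g (act g.symm (c false)) = c false
      ext1 x
      simp only [act, OrderIso.symm_symm, OrderIso.apply_symm_apply]
      rw [Finset.image_image]
      have : (g ∘ g.symm : Ω → Ω) = id := by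
        ext y; simp
      rw [this, Finset.image_id]
    · rfl⟩

/-- Generic pairs: the topological part of the small index property. -/
theorem pairs [Countable Ω] (h : UH Ω) (P : Finset Ω → (Ω → Finset Ω) → Prop)
    (hP : ∀ cl, GenFam (fun _ : Unit => cl) → ∃ A, P A cl) :
    ∃ A B : Finset Ω, A ⊆ B ∧ ∀ g : Ω ≃o Ω, (∀ x ∈ B, g x = x) →
      ∃ cl cl' : Ω → Finset Ω, P A cl ∧ P A cl' ∧ GenFam (fun _ : Unit => cl) ∧
        GenFam (fun _ : Unit => cl') ∧ (∀ x ∈ B, cl x = cl' x ∧ cl x ⊆ B) ∧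
        GenFam (fun b : Bool => if b then cl else cl') ∧
        GenFam (fun b : Bool => if b then cl else act g cl') := by
  classical
  have hB : BaireSpace (Str Ω) := baire_str
  have hsc : SecondCountableTopology (Str Ω) := second_str
  have hne : Nonempty (Str Ω) := by
    obtain ⟨c, hc, -⟩ := extend_all (∅ : Finset Ω) (fun _ => ∅)
      ⟨by simp, by simp, by simp, by simp, by simp⟩
    exact ⟨⟨c, hc⟩⟩
  have hres : ∀ᶠ z in residual (Str Ω), GenFam (fun _ : Unit => z.1) := rep_one.genFam h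
  let Y : (Σ C : Finset Ω, Finset Ω × (C → Finset Ω)) → Set (Str Ω) := fun p =>
    {z | P p.2.1 z.1 ∧ GenFam (fun _ : Unit => z.1) ∧ p.2.1 ⊆ p.1 ∧ Closed z.1 p.1 ∧
      ∀ x : p.1, z.1 x = p.2.2 x}
  have hY : ∃ p, ¬ IsMeagre (Y p) := by
    by_contra hcon
    push Not at hcon
    have h1 : IsMeagre (⋃ p, Y p) := isMeagre_iUnion hcon
    have h2 : ∀ᶠ z in residual (Str Ω), z ∉ ⋃ p, Y p := h1
    have h3 : ∀ᶠ z in residual (Str Ω), False := by
      filter_upwards [hres, h2] with z h4 h5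
      apply h5
      obtain ⟨A, hA⟩ := hP z.1 h4
      obtain ⟨C, hAC, hC⟩ := h4.lf A
      rw [Set.mem_iUnion]
      exact ⟨⟨C, A, fun x => z.1 x⟩, hA, h4, hAC, hC (), fun x => rfl⟩
    have h4 : Dense {z : Str Ω | False} := dense_of_mem_residual h3
    obtain ⟨z0⟩ := hne
    obtain ⟨z, -, hz⟩ := dense_iff_inter_open.1 h4 Set.univ isOpen_univ ⟨z0, trivial⟩
    exact hz
  obtain ⟨⟨B, A, t⟩, hp⟩ := hY
  have hex : ∀ Q : Str Ω → Prop, (∀ᶠ z in residual (Str Ω), Q z) → ∃ z ∈ Y ⟨B, A, t⟩, Q z := by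
    intro Q hQ
    by_contra hcon
    push Not at hcon
    apply hp
    refine mem_of_superset hQ ?_
    intro z hz hzY
    exact hcon z hzY hz
  have hAB : A ⊆ B := by
    obtain ⟨z, hz, -⟩ := hex (fun _ => True) (Eventually.of_forall fun _ => trivial)
    exact hz.2.2.1
  refine ⟨A, B, hAB, fun g hg => ?_⟩
  have h1 : ∀ᶠ z in residual (Str Ω × Str Ω), GenFam (fun b : Bool => if b then z.1.1 else z.2.1) :=
    rep_two.genFam h
  have h2 : ∀ᶠ z in residual (Str Ω × Str Ω),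
      GenFam (fun b : Bool => if b then z.1.1 else act g z.2.1) := (rep_act g).genFam h
  have h3 := kuratowski_ulam (h1.and h2)
  obtain ⟨z, hz, h4⟩ := hex _ h3
  obtain ⟨z', hz', h5, h6⟩ := hex _ h4
  refine ⟨z.1, z'.1, hz.1, hz'.1, hz.2.1, hz'.2.1, ?_, h5, h6⟩
  intro x hx
  refine ⟨?_, hz.2.2.2.1 x hx⟩
  rw [hz.2.2.2.2 ⟨x, hx⟩, hz'.2.2.2.2 ⟨x, hx⟩]

end Top

end Pool.Agent.MP984e59
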